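import Mathlib
import Pool.Agent.W777.ST.B4
set_option autoImplicit false

/-! Integrals over time of the Fourier transform along a line, for functions supported in boxes. -/

namespace Pool.Agent.N238.CR

open MeasureTheory Set Complex FourierTransform
open scoped ENNReal RealInnerProductSpace ComplexConjugate
open Pool.Agent.H153R4 Pool.Agent.W777.ST

variable {n : ℕ}

/-- the coefficients at time `t` -/
def sT (c : Fin n → ℝ) (t : ℝ) : Fin n → ℝ := fun j => -(t * c j)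

lemma exists_max (hn : 0 < n) (h : Fin n → ℝ) : ∃ j, |h j| = ‖h‖ := by
  have : Nonempty (Fin n) := ⟨⟨0, hn⟩⟩
  obtain ⟨j, hj⟩ := Finite.exists_max (fun j => |h j|)
  refine ⟨j, le_antisymm (norm_le_pi_norm h j) ?_⟩
  rw [pi_norm_le_iff_of_nonneg (abs_nonneg _)]
  intro i
  exact hj i

/-- Gaussian integral along the time line -/
lemma gm_time (hn : 0 < n) (c : Fin n → ℝ) (c0 : ℝ) (hc0 : 0 < c0) (hc : ∀ j, c0 ≤ |c j|)
    (R : ℝ) (h z : E n) (hh : h.ofLp ≠ 0) :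
    ∫⁻ t in Icc (-R) R, ENNReal.ofReal (gm (z - dd (sT c t) h)) ≤
      ENNReal.ofReal (1 / (2 * c0 * ‖h.ofLp‖)) := by
  obtain ⟨j, hj⟩ := exists_max hn h.ofLp
  have hpos : 0 < ‖h.ofLp‖ := norm_pos_iff.2 hh
  have hhj : 0 < |h.ofLp j| := by rw [hj]; exact hpos
  have hcj : 0 < |c j| := lt_of_lt_of_le hc0 (hc j)
  have hw : -(2 * c j * h.ofLp j) ≠ 0 := by
    have h1 : c j ≠ 0 := abs_pos.1 hcj
    have h2 : h.ofLp j ≠ 0 := abs_pos.1 hhj
    exact neg_ne_zero.2 (mul_ne_zero (mul_ne_zero two_ne_zero h1) h2)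
  have h1 : ∀ t, gm (z - dd (sT c t) h) ≤
      Real.exp (-Real.pi * (z j - (-(2 * c j * h.ofLp j)) * t) ^ 2) := by
    intro t
    unfold gm
    rw [Real.exp_le_exp]
    have h2 : (z j - (-(2 * c j * h.ofLp j)) * t) ^ 2 ≤ ‖z - dd (sT c t) h‖ ^ 2 := by
      rw [EuclideanSpace.norm_sq_eq]
      have h3 : (z j - (-(2 * c j * h.ofLp j)) * t) ^ 2 = ‖(z - dd (sT c t) h) j‖ ^ 2 := by
        rw [Real.norm_eq_abs, sq_abs]
        simp only [PiLp.sub_apply, dd, sT]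
        ring
      rw [h3]
      exact Finset.single_le_sum (f := fun j => ‖(z - dd (sT c t) h) j‖ ^ 2)
        (fun i _ => by positivity) (Finset.mem_univ j)
    have := Real.pi_pos
    nlinarith
  have h4 := gauss_set Real.pi (z j) (-(2 * c j * h.ofLp j)) (2 * |R|) 0 Real.pi_pos hw
    (by positivity) le_rfl zero_le_one (Icc (-R) R) (by
      rw [Real.volume_Icc]
      apply ENNReal.ofReal_le_ofReal
      have := le_abs_self R
      linarith)
  refine (lintegral_mono fun t => ENNReal.ofReal_le_ofReal (h1 t)).trans (h4.trans ?_)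
  apply ENNReal.ofReal_le_ofReal
  rw [Real.rpow_zero, one_mul, sub_zero, Real.rpow_one, div_self Real.pi_ne_zero, Real.sqrt_one,
    abs_neg, abs_mul, abs_mul, abs_two]
  apply one_div_le_one_div_of_le (by positivity)
  rw [← hj]
  gcongr
  exact hc j

lemma dd_meas (c : Fin n → ℝ) (h : E n) : Measurable fun t : ℝ => dd (sT c t) h := by
  unfold dd sT
  apply (PiLp.volume_preserving_toLp (Fin n)).measurable.comp
  rw [measurable_pi_iff]
  intro j
  fun_prop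

/-- the constant -/
noncomputable def e2 (n : ℕ) : ℝ := Real.exp (Real.pi * n) ^ 2

lemma e2_pos (n : ℕ) : 0 < e2 n := by unfold e2; positivity

/-- the integral over time -/
lemma time_int (hn : 0 < n) (c : Fin n → ℝ) (c0 : ℝ) (hc0 : 0 < c0) (hc : ∀ j, c0 ≤ |c j|)
    (R : ℝ) (h : E n) (hh : h.ofLp ≠ 0) {M : ℝ} {ψ : E n → ℂ} (hψ : BS M ψ) :
    ∫⁻ t in Icc (-R) R, ‖𝓕 ψ (dd (sT c t) h)‖ₑ ^ 2 ≤
      ENNReal.ofReal (e2 n / (2 * c0) * ‖h.ofLp‖⁻¹) * ∫⁻ z, ‖ψ z‖ₑ ^ 2 := by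
  have h1 := loc_int2 (volume.restrict (Icc (-R) R)) (fun t => dd (sT c t) h) (dd_meas c h)
    (ENNReal.ofReal (1 / (2 * c0 * ‖h.ofLp‖)))
    (fun z => gm_time hn c c0 hc0 hc R h z hh) hψ
  refine h1.trans (le_of_eq ?_)
  rw [← mul_assoc, ← ENNReal.ofReal_mul (by positivity)]
  congr 2
  unfold e2
  field_simp

/-- rescaling -/
noncomputable def resc (a : E n) (δ : ℝ) (ψ : E n → ℂ) (z : E n) : ℂ := ψ (a + δ • z)

lemma resc_BS {M : ℝ} {ψ : E n → ℂ} (hψ : BS M ψ) (a : E n) (δ : ℝ) (hδ : 0 < δ)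
    (hs : ∀ z, ψ z ≠ 0 → ∀ j, |z j - a j| ≤ δ) : BS M (resc a δ ψ) := by
  refine ⟨hψ.meas.comp (by fun_prop), fun z => hψ.bd _, fun z hz => ?_⟩
  by_contra hc
  apply hz
  intro j
  have h1 := hs (a + δ • z) hc j
  have h2 : (a + δ • z) j - a j = δ * z j := by
    simp
  rw [h2, abs_mul, abs_of_pos hδ] at h1
  nlinarith [abs_nonneg (z j)]

lemma resc_F (a : E n) (δ : ℝ) (hδ : 0 < δ) (ψ : E n → ℂ) (y : E n) :
    ‖𝓕 ψ y‖ₑ = ENNReal.ofReal (δ ^ n) * ‖𝓕 (resc a δ ψ) (δ • y)‖ₑ := by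
  have h1 : 𝓕 ψ y = (δ ^ n : ℝ) • (Real.fourierChar (-⟪a, y⟫) • 𝓕 (resc a δ ψ) (δ • y)) := by
    have e1 : 𝓕 (resc a δ ψ) (δ • y) =
        ∫ v, Real.fourierChar (-⟪δ • v, y⟫) • ψ (a + δ • v) := by
      rw [Real.fourier_eq]
      congr 1
      ext v
      rw [real_inner_smul_right, real_inner_smul_left]
      rfl
    have e2 := Measure.integral_comp_smul_of_nonneg (μ := (volume : Measure (E n)))
      (fun v => Real.fourierChar (-⟪v, y⟫) • ψ (a + v)) δ (hR := hδ.le)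
    rw [e1, e2, finrank_euclideanSpace_fin, Real.fourier_eq]
    have e3 : ∫ v, Real.fourierChar (-⟪v, y⟫) • ψ v =
        ∫ v, Real.fourierChar (-⟪a + v, y⟫) • ψ (a + v) :=
      (integral_add_left_eq_self (μ := (volume : Measure (E n)))
        (fun v => Real.fourierChar (-⟪v, y⟫) • ψ v) a).symm
    rw [e3]
    have e4 : ∫ v, Real.fourierChar (-⟪a + v, y⟫) • ψ (a + v) =
        Real.fourierChar (-⟪a, y⟫) • ∫ v, Real.fourierChar (-⟪v, y⟫) • ψ (a + v) := by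
      simp only [Circle.smul_def, smul_eq_mul]
      rw [← integral_const_mul]
      congr 1
      ext v
      rw [inner_add_left, neg_add, AddChar.map_add_eq_mul, Circle.coe_mul, mul_assoc]
    rw [e4, smul_comm (Real.fourierChar (-⟪a, y⟫)), smul_smul]
    have e5 : δ ^ n * (δ ^ n)⁻¹ = 1 := mul_inv_cancel₀ (by positivity)
    rw [e5, one_smul]
  rw [h1, enorm_smul, Real.enorm_of_nonneg (by positivity)]
  congr 1
  rw [← ofReal_norm, ← ofReal_norm, Circle.norm_smul]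

lemma resc_L2 (a : E n) (δ : ℝ) (hδ : 0 < δ) {ψ : E n → ℂ} (hψ : Measurable ψ) :
    ∫⁻ z, ‖resc a δ ψ z‖ₑ ^ 2 = ENNReal.ofReal ((δ ^ n)⁻¹) * ∫⁻ z, ‖ψ z‖ₑ ^ 2 := by
  unfold resc
  have hm : Measurable fun v : E n => ‖ψ (a + v)‖ₑ ^ 2 :=
    (hψ.comp (by fun_prop)).enorm.pow_const 2
  have h1 := lintegral_map (μ := (volume : Measure (E n))) hm
    (measurable_const_smul (α := E n) δ)
  rw [Measure.map_addHaar_smul volume hδ.ne', lintegral_smul_measure,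
    finrank_euclideanSpace_fin] at h1
  rw [← h1, abs_of_pos (by positivity), smul_eq_mul]
  congr 1
  exact lintegral_add_left_eq_self (μ := (volume : Measure (E n))) (fun z => ‖ψ z‖ₑ ^ 2) a

lemma dd_smul (s : Fin n → ℝ) (δ : ℝ) (h : E n) : δ • dd s h = dd s (δ • h) := by
  ext j
  simp only [dd, PiLp.smul_apply, smul_eq_mul]
  ring

/-- the integral over time for a function supported in a box -/
lemma time_box (hn : 0 < n) (c : Fin n → ℝ) (c0 : ℝ) (hc0 : 0 < c0) (hc : ∀ j, c0 ≤ |c j|)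
    (R : ℝ) (h : E n) (hh : h.ofLp ≠ 0) {M : ℝ} {ψ : E n → ℂ} (hψ : BS M ψ)
    (a : E n) (δ : ℝ) (hδ : 0 < δ) (hs : ∀ z, ψ z ≠ 0 → ∀ j, |z j - a j| ≤ δ) :
    ∫⁻ t in Icc (-R) R, ‖𝓕 ψ (dd (sT c t) h)‖ₑ ^ 2 ≤
      ENNReal.ofReal (δ ^ (n - 1)) *
        (ENNReal.ofReal (e2 n / (2 * c0) * ‖h.ofLp‖⁻¹) * ∫⁻ z, ‖ψ z‖ₑ ^ 2) := by
  have hδh : (δ • h).ofLp ≠ 0 := by
    rw [WithLp.ofLp_smul]
    exact smul_ne_zero hδ.ne' hh
  have h1 := time_int hn c c0 hc0 hc R (δ • h) hδh (resc_BS hψ a δ hδ hs)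
  simp only [resc_F a δ hδ ψ, dd_smul, mul_pow]
  rw [lintegral_const_mul' _ _ (ENNReal.pow_ne_top ENNReal.ofReal_ne_top)]
  refine (mul_le_mul' le_rfl h1).trans (le_of_eq ?_)
  rw [resc_L2 a δ hδ hψ.meas, WithLp.ofLp_smul, norm_smul, Real.norm_of_nonneg hδ.le,
    ← ENNReal.ofReal_pow (by positivity), ← mul_assoc, ← mul_assoc, ← mul_assoc,
    ← ENNReal.ofReal_mul (by positivity), ← ENNReal.ofReal_mul (by have := e2_pos n; positivity),
    ← ENNReal.ofReal_mul (by positivity)]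
  congr 2
  obtain ⟨k, rfl⟩ : ∃ k, n = k + 1 := ⟨n - 1, by omega⟩
  rw [Nat.add_sub_cancel]
  have hp : 0 < ‖h.ofLp‖ := norm_pos_iff.2 hh
  field_simp
  ring

end Pool.Agent.N238.CR
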