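import Mathlib
import Pool.Agent.N238.CR.A
set_option autoImplicit false

/-! The integral of the reciprocal of the norm over a ball. -/

namespace Pool.Agent.N238.CR

open MeasureTheory Set Complex FourierTransform
open scoped ENNReal RealInnerProductSpace ComplexConjugate
open Pool.Agent.H153R4 Pool.Agent.W777.ST

variable {n : ℕ}

/-- the box -/
def Bx (n : ℕ) (δ : ℝ) : Set (E n) := {h | ‖h.ofLp‖ ≤ δ}

lemma ofLp_meas : Measurable fun h : E n => h.ofLp :=
  (PiLp.volume_preserving_ofLp (Fin n)).measurable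

lemma Bx_meas (δ : ℝ) : MeasurableSet (Bx n δ) := by
  unfold Bx
  exact measurableSet_le (ofLp_meas.norm) measurable_const

/-- the constant -/
noncomputable def J1 (n : ℕ) : ℝ≥0∞ := ∫⁻ h in Bx n 1, ENNReal.ofReal ‖h.ofLp‖⁻¹

lemma J1_fin (hn : 2 ≤ n) : J1 n < ⊤ := by
  have hn0 : (0 : ℝ) < n := by
    have : 0 < n := by omega
    exact_mod_cast this
  have hβ : (0 : ℝ) < 1 - 1 / n := by
    have h2 : (2 : ℝ) ≤ n := by exact_mod_cast hn
    have : (1 : ℝ) / n ≤ 1 / 2 := one_div_le_one_div_of_le (by norm_num) h2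
    linarith
  refine lt_of_le_of_lt ?_ (J_fin n (1 - 1 / n) hβ)
  unfold J1
  have hsub : Bx n 1 ⊆ Q2 n := by
    intro h hh j
    have h1 : |h.ofLp j| ≤ ‖h.ofLp‖ := norm_le_pi_norm h.ofLp j
    have h2 : ‖h.ofLp‖ ≤ 1 := hh
    linarith
  refine le_trans ?_ (lintegral_mono_set hsub)
  apply lintegral_mono_ae
  apply ae_restrict_of_ae
  filter_upwards [ae_ne_zero n] with h hh
  rw [← ENNReal.ofReal_prod_of_nonneg (fun _ _ => by positivity)]
  apply ENNReal.ofReal_le_ofReal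
  have h0 : ∀ j, 0 < |h j| := fun j => abs_pos.2 (hh j)
  have hp : 0 < ‖h.ofLp‖ := by
    have j0 : Fin n := ⟨0, by omega⟩
    exact lt_of_lt_of_le (h0 j0) (norm_le_pi_norm h.ofLp j0)
  have e1 : ∏ j, |h j| ^ ((1 - 1 / (n : ℝ)) - 1) = (∏ j, |h j| ^ (1 / (n : ℝ)))⁻¹ := by
    rw [← Finset.prod_inv_distrib]
    apply Finset.prod_congr rfl
    intro j _
    rw [← Real.rpow_neg (abs_nonneg _)]
    congr 1
    ring
  rw [e1]
  apply inv_anti₀ (Finset.prod_pos fun j _ => Real.rpow_pos_of_pos (h0 j) _)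
  calc ∏ j, |h j| ^ (1 / (n : ℝ)) ≤ ∏ _j : Fin n, ‖h.ofLp‖ ^ (1 / (n : ℝ)) := by
        apply Finset.prod_le_prod (fun j _ => by positivity)
        intro j _
        exact Real.rpow_le_rpow (abs_nonneg _) (norm_le_pi_norm h.ofLp j) (by positivity)
    _ = ‖h.ofLp‖ := by
        rw [Finset.prod_const, Finset.card_univ, Fintype.card_fin, ← Real.rpow_natCast,
          ← Real.rpow_mul hp.le, one_div_mul_cancel hn0.ne', Real.rpow_one]

lemma J_scale (hn : 1 ≤ n) (δ : ℝ) (hδ : 0 < δ) :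
    ∫⁻ h in Bx n δ, ENNReal.ofReal ‖h.ofLp‖⁻¹ = ENNReal.ofReal (δ ^ (n - 1)) * J1 n := by
  set F : E n → ℝ≥0∞ := (Bx n δ).indicator fun h => ENNReal.ofReal ‖h.ofLp‖⁻¹ with hF
  have hFm : Measurable F := by
    refine Measurable.indicator ?_ (Bx_meas δ)
    exact (ofLp_meas.norm.inv).ennreal_ofReal
  have h1 := lintegral_map (μ := (volume : Measure (E n))) hFm
    (measurable_const_smul (α := E n) δ)
  rw [Measure.map_addHaar_smul volume hδ.ne', lintegral_smul_measure,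
    finrank_euclideanSpace_fin] at h1
  have h2 : ∀ v : E n, F (δ • v) = ENNReal.ofReal δ⁻¹ *
      (Bx n 1).indicator (fun h => ENNReal.ofReal ‖h.ofLp‖⁻¹) v := by
    intro v
    have e1 : ‖(δ • v).ofLp‖ = δ * ‖v.ofLp‖ := by
      rw [WithLp.ofLp_smul, norm_smul, Real.norm_of_nonneg hδ.le]
    by_cases hv : v ∈ Bx n 1
    · have hv2 : δ • v ∈ Bx n δ := by
        have h3 : ‖v.ofLp‖ ≤ 1 := hv
        change ‖(δ • v).ofLp‖ ≤ δ
        rw [e1]
        nlinarith
      rw [hF, indicator_of_mem hv2, indicator_of_mem hv, e1, mul_inv,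
        ENNReal.ofReal_mul (by positivity)]
    · have hv2 : δ • v ∉ Bx n δ := by
        intro h3
        apply hv
        change ‖(δ • v).ofLp‖ ≤ δ at h3
        rw [e1] at h3
        change ‖v.ofLp‖ ≤ 1
        by_contra hc
        push Not at hc
        nlinarith
      rw [hF, indicator_of_notMem hv2, indicator_of_notMem hv, mul_zero]
  simp only [h2] at h1
  rw [lintegral_const_mul' _ _ ENNReal.ofReal_ne_top, hF, lintegral_indicator (Bx_meas δ),
    lintegral_indicator (Bx_meas 1), abs_of_pos (by positivity), smul_eq_mul] at h1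
  have h3 : ENNReal.ofReal (δ ^ n) * (ENNReal.ofReal ((δ ^ n)⁻¹) *
      ∫⁻ h in Bx n δ, ENNReal.ofReal ‖h.ofLp‖⁻¹) =
      ENNReal.ofReal (δ ^ n) * (ENNReal.ofReal δ⁻¹ * ∫⁻ h in Bx n 1, ENNReal.ofReal ‖h.ofLp‖⁻¹) := by
    rw [h1]
  rw [← mul_assoc, ← ENNReal.ofReal_mul (by positivity), mul_inv_cancel₀ (by positivity),
    ENNReal.ofReal_one, one_mul, ← mul_assoc, ← ENNReal.ofReal_mul (by positivity)] at h3
  rw [h3]
  congr 2
  obtain ⟨k, rfl⟩ : ∃ k, n = k + 1 := ⟨n - 1, by omega⟩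
  rw [Nat.add_sub_cancel]
  field_simp
  ring

end Pool.Agent.N238.CR
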