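import Mathlib
import Pool.Agent.N238.CR.B
set_option autoImplicit false

/-! Decoherence of random translations. -/

namespace Pool.Agent.N238.CR

open MeasureTheory Set Complex FourierTransform ProbabilityTheory
open scoped ENNReal RealInnerProductSpace ComplexConjugate
open Pool.Agent.H153R4 Pool.Agent.W777.ST

variable {n : ℕ} {Ω : Type} [MeasurableSpace Ω]

/-- the phase -/
noncomputable def ex (h y : E n) : ℂ := cexp (((2 * Real.pi * ⟪h, y⟫ : ℝ) : ℂ) * I)

lemma ex_norm (h y : E n) : ‖ex h y‖ = 1 := by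
  unfold ex
  rw [Complex.norm_exp_ofReal_mul_I]

lemma ex_enorm (h y : E n) : ‖ex h y‖ₑ = 1 := by
  rw [← ofReal_norm, ex_norm, ENNReal.ofReal_one]

lemma ex_meas : Measurable fun p : E n × E n => ex p.1 p.2 := by
  unfold ex
  fun_prop

/-- the characteristic function -/
noncomputable def mm (P : Measure Ω) (Y : Ω → E n) (h : E n) : ℂ := ∫ ω, ex h (Y ω) ∂P

lemma mm_meas (P : Measure Ω) [SFinite P] {Y : Ω → E n} (hY : Measurable Y) :
    Measurable (mm P Y) := by
  unfold mm
  have h1 : Measurable fun r : E n × Ω => ex r.1 (Y r.2) :=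
    ex_meas.comp (measurable_fst.prodMk (hY.comp measurable_snd))
  exact (h1.stronglyMeasurable.integral_prod_right' (ν := P)).measurable

lemma mm_le (P : Measure Ω) [IsProbabilityMeasure P] (Y : Ω → E n) (h : E n) :
    ‖mm P Y h‖ ≤ 1 := by
  unfold mm
  refine (norm_integral_le_of_norm_le_const (C := 1) (ae_of_all _ fun ω => ?_)).trans ?_
  · rw [ex_norm]
  · simp

lemma mm_L2 (P : Measure Ω) [IsProbabilityMeasure P] {Y : Ω → E n} (hY : Measurable Y)
    {c : ℝ≥0∞} (hc : c ≠ ⊤) (hd : ∀ S, MeasurableSet S → P (Y ⁻¹' S) ≤ c * volume S) :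
    ∫⁻ h, ‖mm P Y h‖ₑ ^ 2 ≤ c := by
  set ν : Measure (E n) := P.map Y with hν
  have hνP : IsProbabilityMeasure ν := Measure.isProbabilityMeasure_map hY.aemeasurable
  have hle : ν ≤ c • (volume : Measure (E n)) := by
    rw [Measure.le_iff]
    intro S hS
    rw [hν, Measure.map_apply hY hS]
    simpa using hd S hS
  have hac : ν ≪ volume :=
    (Measure.absolutelyContinuous_of_le hle).trans Measure.smul_absolutelyContinuous
  set p := ν.rnDeriv volume with hp
  have hpm : Measurable p := Measure.measurable_rnDeriv _ _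
  have hwd : volume.withDensity p = ν := Measure.withDensity_rnDeriv_eq ν volume hac
  have hpc : ∀ᵐ y, p y ≤ c := by
    refine ae_le_of_forall_setLIntegral_le_of_sigmaFinite hpm (g := fun _ => c) ?_
    intro S hS _
    rw [← withDensity_apply _ hS, hwd, lintegral_const, Measure.restrict_apply_univ]
    have := hle S
    simpa using this
  have hp1 : ∫⁻ y, p y = 1 := by
    have : volume.withDensity p univ = 1 := by rw [hwd]; exact measure_univ
    rwa [withDensity_apply _ MeasurableSet.univ, Measure.restrict_univ] at this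
  have hplt : ∀ᵐ y, p y < ⊤ := by
    filter_upwards [hpc] with y hy
    exact hy.trans_lt hc.lt_top
  set pr : E n → ℂ := fun y => ((p y).toReal : ℂ) with hpr
  have hprm : Measurable pr := Complex.measurable_ofReal.comp hpm.ennreal_toReal
  have hen : ∀ᵐ y, ‖pr y‖ₑ = p y := by
    filter_upwards [hplt] with y hy
    rw [hpr]
    simp only
    rw [← ofReal_norm, Complex.norm_real, Real.norm_of_nonneg ENNReal.toReal_nonneg,
      ENNReal.ofReal_toReal hy.ne]
  have hint : Integrable pr := by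
    refine ⟨hprm.aestronglyMeasurable, ?_⟩
    rw [HasFiniteIntegral, lintegral_congr_ae hen, hp1]
    exact ENNReal.one_lt_top
  have h2 : ∫⁻ y, ‖pr y‖ₑ ^ 2 ≤ c := by
    calc ∫⁻ y, ‖pr y‖ₑ ^ 2 ≤ ∫⁻ y, c * p y := by
          apply lintegral_mono_ae
          filter_upwards [hen, hpc] with y hy hy2
          rw [hy, sq]
          gcongr
      _ = c := by rw [lintegral_const_mul _ hpm, hp1, mul_one]
  have hmem : MemLp pr 2 := by
    refine ⟨hprm.aestronglyMeasurable, ?_⟩
    rw [eLpNorm_lt_top_iff_lintegral_rpow_enorm_lt_top (by norm_num) (by norm_num)]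
    simp only [ENNReal.toReal_ofNat, ENNReal.rpow_ofNat]
    exact h2.trans_lt hc.lt_top
  have hF : ∀ h, mm P Y h = 𝓕 pr (-h) := by
    intro h
    unfold mm
    have e1 : ∫ ω, ex h (Y ω) ∂P = ∫ y, ex h y ∂ν := by
      rw [hν, integral_map hY.aemeasurable]
      exact (ex_meas.comp (measurable_const.prodMk measurable_id)).aestronglyMeasurable
    rw [e1, ← hwd, integral_withDensity_eq_integral_toReal_smul hpm hplt, Real.fourier_eq']
    congr 1
    ext y
    rw [hpr]
    simp only [ex, smul_eq_mul, Complex.real_smul]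
    rw [mul_comm]
    congr 2
    rw [inner_neg_right, real_inner_comm]
    push_cast
    ring
  simp only [hF]
  rw [lintegral_neg_eq_self (μ := (volume : Measure (E n))) (fun h => ‖𝓕 pr h‖ₑ ^ 2),
    plancherel pr hint hmem]
  exact h2

/-- the decoherence integral -/
lemma deco (hn : 1 ≤ n) (P : Measure Ω) [IsProbabilityMeasure P] {Y : Ω → E n} (hY : Measurable Y)
    (A ρ δ : ℝ) (hA : 0 ≤ A) (hρ : 0 < ρ) (hδ : 0 < δ)
    (hd : ∀ S, MeasurableSet S → P (Y ⁻¹' S) ≤ ENNReal.ofReal (A / ρ ^ n) * volume S) :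
    ∫⁻ h in Bx n δ, ‖mm P Y h‖ₑ ^ 2 * ENNReal.ofReal ‖h.ofLp‖⁻¹ ≤
      (J1 n + ENNReal.ofReal A) * ENNReal.ofReal ((min δ (1 / ρ)) ^ (n - 1)) := by
  have hmm1 : ∀ h, ‖mm P Y h‖ₑ ^ 2 ≤ 1 := by
    intro h
    have : ‖mm P Y h‖ₑ ≤ 1 := by
      rw [← ofReal_norm]
      exact ENNReal.ofReal_le_one.2 (mm_le P Y h)
    exact pow_le_one₀ zero_le this
  have hsm : ∀ r : ℝ, 0 < r → ∫⁻ h in Bx n r, ‖mm P Y h‖ₑ ^ 2 * ENNReal.ofReal ‖h.ofLp‖⁻¹ ≤
      J1 n * ENNReal.ofReal (r ^ (n - 1)) := by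
    intro r hr
    calc ∫⁻ h in Bx n r, ‖mm P Y h‖ₑ ^ 2 * ENNReal.ofReal ‖h.ofLp‖⁻¹
        ≤ ∫⁻ h in Bx n r, ENNReal.ofReal ‖h.ofLp‖⁻¹ := by
          apply lintegral_mono
          intro h
          exact mul_le_of_le_one_left zero_le (hmm1 h)
      _ = _ := by rw [J_scale hn r hr, mul_comm]
  rcases le_total δ (1 / ρ) with h1 | h1
  · rw [min_eq_left h1]
    refine (hsm δ hδ).trans ?_
    gcongr
    exact le_self_add
  · rw [min_eq_right h1]
    have hsub : Bx n δ ⊆ Bx n (1 / ρ) ∪ (Bx n (1 / ρ))ᶜ := by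
      rw [union_compl_self]
      exact subset_univ _
    refine (lintegral_mono_set hsub).trans ((lintegral_union_le _ _ _).trans ?_)
    rw [add_mul]
    apply add_le_add (hsm (1 / ρ) (by positivity))
    calc ∫⁻ h in (Bx n (1 / ρ))ᶜ, ‖mm P Y h‖ₑ ^ 2 * ENNReal.ofReal ‖h.ofLp‖⁻¹
        ≤ ∫⁻ h in (Bx n (1 / ρ))ᶜ, ‖mm P Y h‖ₑ ^ 2 * ENNReal.ofReal ρ := by
          apply setLIntegral_mono' (Bx_meas _).compl
          intro h hh
          gcongr
          have h3 : 1 / ρ < ‖h.ofLp‖ := by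
            by_contra hc
            push Not at hc
            exact hh hc
          calc ‖h.ofLp‖⁻¹ ≤ (1 / ρ)⁻¹ := inv_anti₀ (by positivity) h3.le
            _ = ρ := by simp
      _ ≤ ∫⁻ h, ‖mm P Y h‖ₑ ^ 2 * ENNReal.ofReal ρ := setLIntegral_le_lintegral _ _
      _ = (∫⁻ h, ‖mm P Y h‖ₑ ^ 2) * ENNReal.ofReal ρ :=
          lintegral_mul_const' _ _ ENNReal.ofReal_ne_top
      _ ≤ ENNReal.ofReal (A / ρ ^ n) * ENNReal.ofReal ρ := by
          gcongr
          exact mm_L2 P hY ENNReal.ofReal_ne_top hd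
      _ = _ := by
          rw [← ENNReal.ofReal_mul (by positivity), ← ENNReal.ofReal_mul hA]
          congr 1
          obtain ⟨k, rfl⟩ : ∃ k, n = k + 1 := ⟨n - 1, by omega⟩
          rw [Nat.add_sub_cancel, one_div, inv_pow]
          field_simp
          ring

end Pool.Agent.N238.CR
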