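import Mathlib
set_option autoImplicit false

/-! Second and fourth moments of random sums. -/

namespace Pool.Agent.N238.CR

open MeasureTheory Set Complex
open scoped ENNReal ComplexConjugate

variable {Ω : Type} [MeasurableSpace Ω] {ι : Type} [Fintype ι]

/-- second moment -/
lemma mom2 (P : Measure Ω) [IsProbabilityMeasure P] (a : ι → Ω → ℂ) (ha : ∀ k, Measurable (a k))
    (h1 : ∀ k ω, ‖a k ω‖ ≤ 1)
    (hp : ∀ k l, k ≠ l → ∫ ω, a k ω * conj (a l ω) ∂P = (∫ ω, a k ω ∂P) * conj (∫ ω, a l ω ∂P))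
    (B : ι → ℂ) :
    ∫⁻ ω, ‖∑ k, a k ω * B k‖ₑ ^ 2 ∂P ≤
      ‖∑ k, (∫ ω, a k ω ∂P) * B k‖ₑ ^ 2 + ∑ k, ‖B k‖ₑ ^ 2 := by
  classical
  set m : ι → ℂ := fun k => ∫ ω, a k ω ∂P with hm
  set s : ι → ℝ := fun k => ∫ ω, ‖a k ω‖ ^ 2 ∂P with hs
  have hs1 : ∀ k, s k ≤ 1 := by
    intro k
    have : ∫ ω, ‖a k ω‖ ^ 2 ∂P ≤ ∫ ω, (1 : ℝ) ∂P := by
      apply integral_mono_of_nonneg (ae_of_all _ fun ω => by positivity) (integrable_const _)
      exact ae_of_all _ fun ω => pow_le_one₀ (norm_nonneg _) (h1 k ω)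
    simpa using this
  have hint : ∀ k l, Integrable (fun ω => (a k ω * B k) * conj (a l ω * B l)) P := by
    intro k l
    refine Integrable.of_bound (C := ‖B k‖ * ‖B l‖) ?_ (ae_of_all _ fun ω => ?_)
    · exact (((ha k).mul_const _).mul
        (continuous_conj.measurable.comp ((ha l).mul_const _))).aestronglyMeasurable
    · rw [norm_mul, RCLike.norm_conj, norm_mul, norm_mul]
      have e1 : ‖a k ω‖ * ‖B k‖ ≤ 1 * ‖B k‖ := by gcongr; exact h1 k ω
      have e2 : ‖a l ω‖ * ‖B l‖ ≤ 1 * ‖B l‖ := by gcongr; exact h1 l ω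
      rw [one_mul] at e1 e2
      exact mul_le_mul e1 e2 (by positivity) (by positivity)
  have hbd : ∀ ω, ‖∑ k, a k ω * B k‖ ≤ ∑ k, ‖B k‖ := by
    intro ω
    refine (norm_sum_le _ _).trans (Finset.sum_le_sum fun k _ => ?_)
    rw [norm_mul]
    exact mul_le_of_le_one_left (norm_nonneg _) (h1 k ω)
  have hmeas : Measurable fun ω => ∑ k, a k ω * B k :=
    Finset.measurable_sum _ fun k _ => (ha k).mul_const _
  have hI : Integrable (fun ω => ‖∑ k, a k ω * B k‖ ^ 2) P := by
    refine Integrable.of_bound (C := (∑ k, ‖B k‖) ^ 2) (hmeas.norm.pow_const 2).aestronglyMeasurable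
      (ae_of_all _ fun ω => ?_)
    rw [Real.norm_of_nonneg (by positivity)]
    exact pow_le_pow_left₀ (norm_nonneg _) (hbd ω) 2
  have key : ((∫ ω, ‖∑ k, a k ω * B k‖ ^ 2 ∂P : ℝ) : ℂ) =
      ((‖∑ k, m k * B k‖ ^ 2 + ∑ k, (s k - ‖m k‖ ^ 2) * ‖B k‖ ^ 2 : ℝ) : ℂ) := by
    rw [← integral_complex_ofReal]
    have e1 : ∀ ω, ((‖∑ k, a k ω * B k‖ ^ 2 : ℝ) : ℂ) =
        ∑ k, ∑ l, (a k ω * B k) * conj (a l ω * B l) := by
      intro ω
      push_cast
      rw [← Complex.mul_conj', map_sum, Finset.sum_mul_sum]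
    simp only [e1]
    rw [integral_finsetSum _ fun k _ => integrable_finsetSum _ fun l _ => hint k l]
    have e2 : ∀ k, ∫ ω, ∑ l, (a k ω * B k) * conj (a l ω * B l) ∂P =
        ∑ l, (m k * B k) * conj (m l * B l) + ((s k - ‖m k‖ ^ 2) * ‖B k‖ ^ 2 : ℝ) := by
      intro k
      rw [integral_finsetSum _ fun l _ => hint k l]
      have e3 : ∀ l, ∫ ω, (a k ω * B k) * conj (a l ω * B l) ∂P =
          (m k * B k) * conj (m l * B l) +
            if l = k then (((s k - ‖m k‖ ^ 2) * ‖B k‖ ^ 2 : ℝ) : ℂ) else 0 := by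
        intro l
        have e4 : ∀ ω, (a k ω * B k) * conj (a l ω * B l) =
            (a k ω * conj (a l ω)) * (B k * conj (B l)) := by
          intro ω
          rw [map_mul]
          ring
        simp only [e4]
        rw [integral_mul_const]
        split_ifs with hlk
        · subst hlk
          have e5 : ∫ ω, a l ω * conj (a l ω) ∂P = (s l : ℂ) := by
            rw [hs]
            simp only
            rw [← integral_complex_ofReal]
            congr 1
            ext ω
            rw [Complex.mul_conj']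
            push_cast
            rfl
          rw [e5, Complex.mul_conj', map_mul]
          have e6 : m l * B l * (conj (m l) * conj (B l)) =
              (m l * conj (m l)) * (B l * conj (B l)) := by ring
          rw [e6, Complex.mul_conj', Complex.mul_conj']
          push_cast
          ring
        · rw [hp k l (fun h => hlk h.symm), add_zero, map_mul]
          ring
      simp only [e3]
      rw [Finset.sum_add_distrib, Finset.sum_ite_eq' Finset.univ k, if_pos (Finset.mem_univ k)]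
    simp only [e2]
    rw [Finset.sum_add_distrib, ← Finset.sum_mul_sum, ← map_sum, Complex.mul_conj']
    push_cast
    rfl
  have key2 : ∫ ω, ‖∑ k, a k ω * B k‖ ^ 2 ∂P =
      ‖∑ k, m k * B k‖ ^ 2 + ∑ k, (s k - ‖m k‖ ^ 2) * ‖B k‖ ^ 2 := by exact_mod_cast key
  have e7 : ∫⁻ ω, ‖∑ k, a k ω * B k‖ₑ ^ 2 ∂P =
      ENNReal.ofReal (∫ ω, ‖∑ k, a k ω * B k‖ ^ 2 ∂P) := by
    rw [ofReal_integral_eq_lintegral_ofReal hI (ae_of_all _ fun ω => by positivity)]
    congr 1
    ext ω
    rw [ENNReal.ofReal_pow (norm_nonneg _), ofReal_norm]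
  rw [e7, key2]
  have e8 : ‖∑ k, m k * B k‖ ^ 2 + ∑ k, (s k - ‖m k‖ ^ 2) * ‖B k‖ ^ 2 ≤
      ‖∑ k, m k * B k‖ ^ 2 + ∑ k, ‖B k‖ ^ 2 := by
    gcongr with k _
    have := hs1 k
    have h3 : s k - ‖m k‖ ^ 2 ≤ 1 := by nlinarith [sq_nonneg ‖m k‖]
    exact mul_le_of_le_one_left (by positivity) h3
  refine (ENNReal.ofReal_le_ofReal e8).trans (le_of_eq ?_)
  rw [ENNReal.ofReal_add (by positivity) (by positivity), ENNReal.ofReal_pow (norm_nonneg _),
    ofReal_norm, ENNReal.ofReal_sum_of_nonneg (fun k _ => by positivity)]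
  congr 1
  apply Finset.sum_congr rfl
  intro k _
  rw [ENNReal.ofReal_pow (norm_nonneg _), ofReal_norm]

/-- fourth moment -/
lemma mom4 (P : Measure Ω) [IsProbabilityMeasure P] (u : ι → Ω → ℂ) (hu : ∀ k, Measurable (u k))
    (h1 : ∀ k ω, ‖u k ω‖ ≤ 1)
    (hp : ∀ i j k l, ¬((i = j ∧ k = l) ∨ (i = k ∧ j = l) ∨ (i = l ∧ j = k)) →
      ∫ ω, u i ω * u j ω * conj (u k ω) * conj (u l ω) ∂P = 0)
    (a : ι → ℂ) :
    ∫⁻ ω, ‖∑ k, u k ω * a k‖ₑ ^ 4 ∂P ≤ 3 * (∑ k, ‖a k‖ₑ ^ 2) ^ 2 := by
  classical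
  have hmeas : Measurable fun ω => ∑ k, u k ω * a k :=
    Finset.measurable_sum _ fun k _ => (hu k).mul_const _
  have hbd : ∀ ω, ‖∑ k, u k ω * a k‖ ≤ ∑ k, ‖a k‖ := by
    intro ω
    refine (norm_sum_le _ _).trans (Finset.sum_le_sum fun k _ => ?_)
    rw [norm_mul]
    exact mul_le_of_le_one_left (norm_nonneg _) (h1 k ω)
  have hI : Integrable (fun ω => ‖∑ k, u k ω * a k‖ ^ 4) P := by
    refine Integrable.of_bound (C := (∑ k, ‖a k‖) ^ 4) (hmeas.norm.pow_const 4).aestronglyMeasurable
      (ae_of_all _ fun ω => ?_)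
    rw [Real.norm_of_nonneg (by positivity)]
    exact pow_le_pow_left₀ (norm_nonneg _) (hbd ω) 4
  have hprod : ∀ i j k l, Measurable fun ω => u i ω * u j ω * conj (u k ω) * conj (u l ω) := by
    intro i j k l
    exact (((hu i).mul (hu j)).mul (continuous_conj.measurable.comp (hu k))).mul
      (continuous_conj.measurable.comp (hu l))
  have hprod1 : ∀ i j k l ω, ‖u i ω * u j ω * conj (u k ω) * conj (u l ω)‖ ≤ 1 := by
    intro i j k l ω
    rw [norm_mul, norm_mul, norm_mul, RCLike.norm_conj, RCLike.norm_conj]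
    have e1 : ‖u i ω‖ * ‖u j ω‖ ≤ 1 := mul_le_one₀ (h1 i ω) (norm_nonneg _) (h1 j ω)
    have e2 : ‖u i ω‖ * ‖u j ω‖ * ‖u k ω‖ ≤ 1 := mul_le_one₀ e1 (norm_nonneg _) (h1 k ω)
    exact mul_le_one₀ e2 (norm_nonneg _) (h1 l ω)
  have hint : ∀ i j k l, Integrable (fun ω => u i ω * u j ω * conj (u k ω) * conj (u l ω)) P := by
    intro i j k l
    exact Integrable.of_bound (C := 1) (hprod i j k l).aestronglyMeasurable
      (ae_of_all _ fun ω => hprod1 i j k l ω)
  set c : ι → ι → ι → ι → ℂ := fun i j k l =>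
    ∫ ω, u i ω * u j ω * conj (u k ω) * conj (u l ω) ∂P with hc
  have hc1 : ∀ i j k l, ‖c i j k l‖ ≤ (if i = j ∧ k = l then 1 else 0) +
      (if i = k ∧ j = l then 1 else 0) + (if i = l ∧ j = k then (1 : ℝ) else 0) := by
    intro i j k l
    have hle1 : ‖c i j k l‖ ≤ 1 := by
      rw [hc]
      refine (norm_integral_le_of_norm_le_const (C := 1)
        (ae_of_all _ fun ω => hprod1 i j k l ω)).trans ?_
      simp
    by_cases hq : (i = j ∧ k = l) ∨ (i = k ∧ j = l) ∨ (i = l ∧ j = k)
    · refine hle1.trans ?_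
      have n1 : (0 : ℝ) ≤ if i = j ∧ k = l then 1 else 0 := by split_ifs <;> norm_num
      have n2 : (0 : ℝ) ≤ if i = k ∧ j = l then 1 else 0 := by split_ifs <;> norm_num
      have n3 : (0 : ℝ) ≤ if i = l ∧ j = k then 1 else 0 := by split_ifs <;> norm_num
      rcases hq with h | h | h
      · rw [if_pos h]; linarith
      · rw [if_pos h]; linarith
      · rw [if_pos h]; linarith
    · rw [hc]
      simp only
      rw [hp i j k l hq, norm_zero]
      push Not at hq
      positivity
  have key : ((∫ ω, ‖∑ k, u k ω * a k‖ ^ 4 ∂P : ℝ) : ℂ) =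
      ∑ i, ∑ j, ∑ k, ∑ l, c i j k l * (a i * a j * conj (a k) * conj (a l)) := by
    rw [← integral_complex_ofReal]
    have e1 : ∀ ω, ((‖∑ k, u k ω * a k‖ ^ 4 : ℝ) : ℂ) =
        ∑ i, ∑ j, ∑ k, ∑ l, (u i ω * u j ω * conj (u k ω) * conj (u l ω)) *
          (a i * a j * conj (a k) * conj (a l)) := by
      intro ω
      have e2 : ((‖∑ k, u k ω * a k‖ ^ 4 : ℝ) : ℂ) =
          ((∑ k, u k ω * a k) * (∑ k, u k ω * a k)) *
            ((∑ k, conj (u k ω * a k)) * (∑ k, conj (u k ω * a k))) := by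
        have e3 : ((‖∑ k, u k ω * a k‖ ^ 4 : ℝ) : ℂ) =
            ((∑ k, u k ω * a k) * conj (∑ k, u k ω * a k)) *
              ((∑ k, u k ω * a k) * conj (∑ k, u k ω * a k)) := by
          rw [Complex.mul_conj']
          push_cast
          ring
        rw [e3, map_sum]
        ring
      rw [e2, Finset.sum_mul_sum, Finset.sum_mul_sum, Finset.sum_mul]
      apply Finset.sum_congr rfl
      intro i _
      rw [Finset.sum_mul]
      apply Finset.sum_congr rfl
      intro j _
      rw [Finset.mul_sum]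
      apply Finset.sum_congr rfl
      intro k _
      rw [Finset.mul_sum]
      apply Finset.sum_congr rfl
      intro l _
      rw [map_mul, map_mul]
      ring
    simp only [e1]
    rw [integral_finsetSum _ fun i _ => integrable_finsetSum _ fun j _ =>
      integrable_finsetSum _ fun k _ => integrable_finsetSum _ fun l _ =>
        (hint i j k l).mul_const _]
    apply Finset.sum_congr rfl
    intro i _
    rw [integral_finsetSum _ fun j _ =>
      integrable_finsetSum _ fun k _ => integrable_finsetSum _ fun l _ =>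
        (hint i j k l).mul_const _]
    apply Finset.sum_congr rfl
    intro j _
    rw [integral_finsetSum _ fun k _ => integrable_finsetSum _ fun l _ =>
        (hint i j k l).mul_const _]
    apply Finset.sum_congr rfl
    intro k _
    rw [integral_finsetSum _ fun l _ => (hint i j k l).mul_const _]
    apply Finset.sum_congr rfl
    intro l _
    rw [integral_mul_const]
  have key2 : ∫ ω, ‖∑ k, u k ω * a k‖ ^ 4 ∂P ≤ 3 * (∑ k, ‖a k‖ ^ 2) ^ 2 := by
    have h0 : 0 ≤ ∫ ω, ‖∑ k, u k ω * a k‖ ^ 4 ∂P := integral_nonneg fun ω => by positivity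
    have e1 : ∫ ω, ‖∑ k, u k ω * a k‖ ^ 4 ∂P =
        ‖∑ i, ∑ j, ∑ k, ∑ l, c i j k l * (a i * a j * conj (a k) * conj (a l))‖ := by
      rw [← key, Complex.norm_real, Real.norm_of_nonneg h0]
    rw [e1]
    calc ‖∑ i, ∑ j, ∑ k, ∑ l, c i j k l * (a i * a j * conj (a k) * conj (a l))‖
        ≤ ∑ i, ∑ j, ∑ k, ∑ l, ((if i = j ∧ k = l then 1 else 0) +
      (if i = k ∧ j = l then 1 else 0) + (if i = l ∧ j = k then (1 : ℝ) else 0)) *
            (‖a i‖ * ‖a j‖ * ‖a k‖ * ‖a l‖) := by
          refine (norm_sum_le _ _).trans (Finset.sum_le_sum fun i _ => ?_)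
          refine (norm_sum_le _ _).trans (Finset.sum_le_sum fun j _ => ?_)
          refine (norm_sum_le _ _).trans (Finset.sum_le_sum fun k _ => ?_)
          refine (norm_sum_le _ _).trans (Finset.sum_le_sum fun l _ => ?_)
          rw [norm_mul, norm_mul, norm_mul, norm_mul, RCLike.norm_conj, RCLike.norm_conj]
          exact mul_le_mul_of_nonneg_right (hc1 i j k l) (by positivity)
      _ = 3 * (∑ k, ‖a k‖ ^ 2) ^ 2 := by
          simp only [add_mul, ite_mul, one_mul, zero_mul, Finset.sum_add_distrib]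
          have p1 : ∑ i, ∑ j, ∑ k, ∑ l, (if i = j ∧ k = l then
              ‖a i‖ * ‖a j‖ * ‖a k‖ * ‖a l‖ else 0) = (∑ k, ‖a k‖ ^ 2) ^ 2 := by
            rw [sq, Finset.sum_mul]
            apply Finset.sum_congr rfl
            intro i _
            rw [Finset.mul_sum]
            have : ∀ j, ∑ k, ∑ l, (if i = j ∧ k = l then
              ‖a i‖ * ‖a j‖ * ‖a k‖ * ‖a l‖ else 0) =
                if i = j then ∑ k, ‖a i‖ * ‖a j‖ * ‖a k‖ * ‖a k‖ else 0 := by
              intro j
              split_ifs with h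
              · simp [h]
              · simp [h]
            simp only [this]
            rw [Finset.sum_ite_eq Finset.univ i, if_pos (Finset.mem_univ i)]
            apply Finset.sum_congr rfl
            intro k _
            ring
          have p2 : ∑ i, ∑ j, ∑ k, ∑ l, (if i = k ∧ j = l then
              ‖a i‖ * ‖a j‖ * ‖a k‖ * ‖a l‖ else 0) = (∑ k, ‖a k‖ ^ 2) ^ 2 := by
            rw [sq, Finset.sum_mul]
            apply Finset.sum_congr rfl
            intro i _
            rw [Finset.mul_sum]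
            apply Finset.sum_congr rfl
            intro j _
            have : ∀ k, ∑ l, (if i = k ∧ j = l then
              ‖a i‖ * ‖a j‖ * ‖a k‖ * ‖a l‖ else 0) =
                if i = k then ‖a i‖ * ‖a j‖ * ‖a k‖ * ‖a j‖ else 0 := by
              intro k
              split_ifs with h
              · simp [h]
              · simp [h]
            simp only [this]
            rw [Finset.sum_ite_eq Finset.univ i, if_pos (Finset.mem_univ i)]
            ring
          have p3 : ∑ i, ∑ j, ∑ k, ∑ l, (if i = l ∧ j = k then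
              ‖a i‖ * ‖a j‖ * ‖a k‖ * ‖a l‖ else 0) = (∑ k, ‖a k‖ ^ 2) ^ 2 := by
            rw [sq, Finset.sum_mul]
            apply Finset.sum_congr rfl
            intro i _
            rw [Finset.mul_sum]
            apply Finset.sum_congr rfl
            intro j _
            have : ∀ k, ∑ l, (if i = l ∧ j = k then
              ‖a i‖ * ‖a j‖ * ‖a k‖ * ‖a l‖ else 0) =
                if j = k then ‖a i‖ * ‖a j‖ * ‖a k‖ * ‖a i‖ else 0 := by
              intro k
              split_ifs with h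
              · simp [h]
              · simp [h]
            simp only [this]
            rw [Finset.sum_ite_eq Finset.univ j, if_pos (Finset.mem_univ j)]
            ring
          rw [p1, p2, p3]
          ring
  have e7 : ∫⁻ ω, ‖∑ k, u k ω * a k‖ₑ ^ 4 ∂P =
      ENNReal.ofReal (∫ ω, ‖∑ k, u k ω * a k‖ ^ 4 ∂P) := by
    rw [ofReal_integral_eq_lintegral_ofReal hI (ae_of_all _ fun ω => by positivity)]
    congr 1
    ext ω
    rw [ENNReal.ofReal_pow (norm_nonneg _), ofReal_norm]
  rw [e7]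
  refine (ENNReal.ofReal_le_ofReal key2).trans (le_of_eq ?_)
  rw [ENNReal.ofReal_mul (by norm_num), ENNReal.ofReal_pow (by positivity),
    ENNReal.ofReal_sum_of_nonneg (fun k _ => by positivity)]
  congr 1
  · norm_num
  · congr 1
    apply Finset.sum_congr rfl
    intro k _
    rw [ENNReal.ofReal_pow (norm_nonneg _), ofReal_norm]

end Pool.Agent.N238.CR
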