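import Mathlib
import Pool.Agent.N238.CR.C
import Pool.Agent.N238.CR.D
set_option autoImplicit false

/-! Fourth moments of sums with random translations. -/

namespace Pool.Agent.N238.CR

open MeasureTheory Set Complex FourierTransform ProbabilityTheory
open scoped ENNReal RealInnerProductSpace ComplexConjugate
open Pool.Agent.H153R4 Pool.Agent.W777.ST

variable {n : ℕ} {Ω : Type} [MeasurableSpace Ω] {ι : Type} [Fintype ι]

/-- modulation -/
noncomputable def md (y : E n) (g : E n → ℂ) (z : E n) : ℂ := ex z y * g z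

lemma md_BS {M : ℝ} {g : E n → ℂ} (hg : BS M g) (y : E n) : BS M (md y g) := by
  refine ⟨?_, fun z => ?_, fun z hz => ?_⟩
  · unfold md
    exact (ex_meas.comp (measurable_id.prodMk measurable_const)).mul hg.meas
  · unfold md
    rw [norm_mul, ex_norm, one_mul]
    exact hg.bd z
  · unfold md
    rw [hg.supp z hz, mul_zero]

lemma F_md (s : Fin n → ℝ) (y : E n) (g : E n → ℂ) (x : E n) :
    𝓕 (ch s (md y g)) x = 𝓕 (ch s g) (x - y) := by
  rw [Real.fourier_eq', Real.fourier_eq']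
  apply integral_congr_ae
  refine ae_of_all _ fun z => ?_
  simp only [ch, md, ex, smul_eq_mul]
  have e1 : cexp (((-2 * Real.pi * ⟪z, x - y⟫ : ℝ) : ℂ) * I) =
      cexp (((-2 * Real.pi * ⟪z, x⟫ : ℝ) : ℂ) * I) * cexp (((2 * Real.pi * ⟪z, y⟫ : ℝ) : ℂ) * I) := by
    rw [← Complex.exp_add, inner_sub_right]
    congr 1
    push_cast
    ring
  rw [e1]
  ring

/-- phase -/
noncomputable def pz (s : Fin n → ℝ) (h : E n) : ℂ :=
  cexp (((-(2 * Real.pi * ∑ j, s j * h j ^ 2) : ℝ) : ℂ) * I)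

lemma pz_enorm (s : Fin n → ℝ) (h : E n) : ‖pz s h‖ₑ = 1 := by
  unfold pz
  rw [← ofReal_norm, Complex.norm_exp_ofReal_mul_I, ENNReal.ofReal_one]

lemma BB_eq (s : Fin n → ℝ) (g : E n → ℂ) (h : E n) :
    BB (ch s g) h = pz s h * 𝓕 (kk g h) (dd s h) := by
  unfold BB pz
  rw [Real.fourier_eq', ← integral_const_mul]
  apply integral_congr_ae
  refine ae_of_all _ fun z => ?_
  simp only [kk, ch, map_mul, smul_eq_mul]
  rw [← Complex.exp_conj]
  have e0 : (2 * Real.pi * ∑ j, s j * (z + h) j ^ 2) - 2 * Real.pi * ∑ j, s j * z j ^ 2 =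
      2 * Real.pi * (∑ j, s j * h j ^ 2) + 2 * Real.pi * ⟪z, dd s h⟫ := by
    rw [PiLp.inner_apply, ← mul_sub, ← mul_add, ← Finset.sum_sub_distrib,
      ← Finset.sum_add_distrib]
    congr 1
    apply Finset.sum_congr rfl
    intro j _
    simp only [PiLp.add_apply, dd, RCLike.inner_apply, conj_trivial]
    ring
  have e1 : cexp (((-(2 * Real.pi * ∑ j, s j * (z + h) j ^ 2) : ℝ) : ℂ) * I) *
      cexp (conj ((((-(2 * Real.pi * ∑ j, s j * z j ^ 2) : ℝ) : ℂ) * I))) =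
      cexp (((-(2 * Real.pi * ∑ j, s j * h j ^ 2) : ℝ) : ℂ) * I) *
        cexp (((-2 * Real.pi * ⟪z, dd s h⟫ : ℝ) : ℂ) * I) := by
    rw [← Complex.exp_add, ← Complex.exp_add]
    congr 1
    simp only [map_mul, Complex.conj_ofReal, Complex.conj_I]
    have e2 : -(2 * Real.pi * ∑ j, s j * (z + h) j ^ 2) + 2 * Real.pi * ∑ j, s j * z j ^ 2 =
      -(2 * Real.pi * ∑ j, s j * h j ^ 2) + -2 * Real.pi * ⟪z, dd s h⟫ := by linarith
    have e3 := congrArg (fun r : ℝ => (r : ℂ) * I) e2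
    simp only [Complex.ofReal_add, Complex.ofReal_neg] at e3 ⊢
    linear_combination e3
  linear_combination (g (z + h) * conj (g z)) * e1

lemma kk_md (y : E n) (g : E n → ℂ) (h z : E n) : kk (md y g) h z = ex h y * kk g h z := by
  unfold kk md ex
  rw [map_mul, ← Complex.exp_conj, map_mul, Complex.conj_ofReal, Complex.conj_I]
  have e1 : cexp (((2 * Real.pi * ⟪z + h, y⟫ : ℝ) : ℂ) * I) *
      cexp (((2 * Real.pi * ⟪z, y⟫ : ℝ) : ℂ) * -I) = cexp (((2 * Real.pi * ⟪h, y⟫ : ℝ) : ℂ) * I) := by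
    rw [← Complex.exp_add, inner_add_left]
    congr 1
    push_cast
    ring
  rw [← e1]
  ring

lemma BB_md (s : Fin n → ℝ) (y : E n) (g : E n → ℂ) (h : E n) :
    BB (ch s (md y g)) h = pz s h * (ex h y * 𝓕 (kk g h) (dd s h)) := by
  rw [BB_eq]
  congr 1
  have e1 : kk (md y g) h = fun z => ex h y * kk g h z := by
    ext z
    exact kk_md y g h z
  rw [e1, Real.fourier_eq, Real.fourier_eq, ← integral_const_mul]
  congr 1
  ext z
  rw [Circle.smul_def, Circle.smul_def, smul_eq_mul, smul_eq_mul]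
  ring

/-- the square function identity -/
lemma sqf {M : ℝ} {G : ι → E n → ℂ} (hG : ∀ k, BS M (G k)) :
    ∫⁻ x, (∑ k, ‖𝓕 (G k) x‖ₑ ^ 2) ^ 2 = ∫⁻ h, ‖∑ k, BB (G k) h‖ₑ ^ 2 := by
  have hi : Integrable (fun h => ∑ k, BB (G k) h) :=
    integrable_finsetSum _ fun k _ => BB_int (hG k)
  have hm : MemLp (fun h => ∑ k, BB (G k) h) 2 := memLp_finsetSum _ fun k _ => BB_memLp (hG k)
  rw [← plancherel _ hi hm]
  congr 1
  ext x
  have e1 : 𝓕 (fun h => ∑ k, BB (G k) h) x = ((∑ k, ‖𝓕 (G k) x‖ ^ 2 : ℝ) : ℂ) := by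
    rw [Real.fourier_eq]
    have e2 : ∀ v, Real.fourierChar (-⟪v, x⟫) • ∑ k, BB (G k) v =
        ∑ k, Real.fourierChar (-⟪v, x⟫) • BB (G k) v := fun v => Finset.smul_sum
    simp only [e2]
    rw [integral_finsetSum _ fun k _ =>
      (Real.fourierIntegral_convergent_iff (μ := volume) x).2 (BB_int (hG k))]
    push_cast
    apply Finset.sum_congr rfl
    intro k _
    have e3 := F_BB (hG k) x
    rw [Real.fourier_eq] at e3
    rw [e3, mul_comm, Complex.mul_conj']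
  rw [e1, ← ofReal_norm, Complex.norm_real, Real.norm_of_nonneg (by positivity),
    ENNReal.ofReal_sum_of_nonneg (fun k _ => by positivity)]
  congr 1
  apply Finset.sum_congr rfl
  intro k _
  rw [ENNReal.ofReal_pow (norm_nonneg _), ofReal_norm]

lemma sqf_tr {M : ℝ} {G : ι → E n → ℂ} (hG : ∀ k, BS M (G k)) (s : Fin n → ℝ) (y : ι → E n) :
    ∫⁻ x, (∑ k, ‖𝓕 (ch s (G k)) (x - y k)‖ₑ ^ 2) ^ 2 =
      ∫⁻ h, ‖∑ k, ex h (y k) * 𝓕 (kk (G k) h) (dd s h)‖ₑ ^ 2 := by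
  have h1 := sqf (fun k => (md_BS (hG k) (y k)).ch s)
  simp only [F_md, BB_md] at h1
  rw [h1]
  congr 1
  ext h
  rw [← Finset.mul_sum, enorm_mul, pz_enorm, one_mul]

lemma ex_meas' {α : Type*} [MeasurableSpace α] {f g : α → E n} (hf : Measurable f)
    (hg : Measurable g) : Measurable fun a => ex (f a) (g a) := by
  unfold ex
  exact Complex.measurable_exp.comp ((Complex.measurable_ofReal.comp
    ((hf.inner hg).const_mul _)).mul_const _)

lemma FK_meas' {α : Type*} [MeasurableSpace α] (c : Fin n → ℝ) {g : E n → ℂ} (hg : Measurable g)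
    {f : α → E n} {τ : α → ℝ} (hf : Measurable f) (hτ : Measurable τ) :
    Measurable fun a => 𝓕 (kk g (f a)) (dd (sT c (τ a)) (f a)) := by
  simp only [Real.fourier_eq]
  have h1 : Measurable fun r : α × E n =>
      Real.fourierChar (-⟪r.2, dd (sT c (τ r.1)) (f r.1)⟫) • kk g (f r.1) r.2 := by
    have hf1 : Measurable fun r : α × E n => f r.1 := hf.comp measurable_fst
    have hτ1 : Measurable fun r : α × E n => τ r.1 := hτ.comp measurable_fst
    have hdd : Measurable fun r : α × E n => dd (sT c (τ r.1)) (f r.1) := by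
      unfold dd sT
      apply (PiLp.volume_preserving_toLp (Fin n)).measurable.comp
      rw [measurable_pi_iff]
      intro j
      have hfj : Measurable fun r : α × E n => (f r.1) j :=
        (measurable_pi_apply j).comp (ofLp_meas.comp hf1)
      exact (((hτ1.mul_const (c j)).neg).const_mul 2).mul hfj
    have hin : Measurable fun r : α × E n =>
        -⟪r.2, dd (sT c (τ r.1)) (f r.1)⟫ := (measurable_snd.inner hdd).neg
    have hk : Measurable fun r : α × E n => kk g (f r.1) r.2 := by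
      unfold kk
      exact (hg.comp (measurable_snd.add hf1)).mul
        (continuous_conj.measurable.comp (hg.comp measurable_snd))
    have hc : Measurable fun r : α × E n =>
        ((Real.fourierChar (-⟪r.2, dd (sT c (τ r.1)) (f r.1)⟫) : Circle) : ℂ) :=
      (continuous_subtype_val.comp Real.continuous_fourierChar).measurable.comp hin
    exact hc.mul hk
  exact (h1.stronglyMeasurable.integral_prod_right' (ν := volume)).measurable

lemma Fch_meas (c : Fin n → ℝ) {g : E n → ℂ} (hg : Measurable g) :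
    Measurable fun q : ℝ × E n => 𝓕 (ch (sT c q.1) g) q.2 := by
  simp only [Real.fourier_eq]
  have h1 : Measurable fun r : (ℝ × E n) × E n =>
      Real.fourierChar (-⟪r.2, r.1.2⟫) • ch (sT c r.1.1) g r.2 := by
    have hin : Measurable fun r : (ℝ × E n) × E n => -⟪r.2, r.1.2⟫ := by fun_prop
    have hk : Measurable fun r : (ℝ × E n) × E n => ch (sT c r.1.1) g r.2 := by
      unfold ch sT
      exact (by fun_prop : Measurable fun r : (ℝ × E n) × E n =>
        cexp (((-(2 * Real.pi * ∑ j, (-(r.1.1 * c j)) * r.2 j ^ 2) : ℝ) : ℂ) * I)).mul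
          (hg.comp measurable_snd)
    have hc : Measurable fun r : (ℝ × E n) × E n =>
        ((Real.fourierChar (-⟪r.2, r.1.2⟫) : Circle) : ℂ) :=
      (continuous_subtype_val.comp Real.continuous_fourierChar).measurable.comp hin
    exact hc.mul hk
  exact (h1.stronglyMeasurable.integral_prod_right' (ν := volume)).measurable

/-- pieces with disjoint supports of small diameter -/
structure Pcs (M δ : ℝ) (G : ι → E n → ℂ) : Prop where
  bs : ∀ k, BS M (G k)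
  dj : ∀ k l, k ≠ l → ∀ z, G k z = 0 ∨ G l z = 0
  dm : ∀ k z w, G k z ≠ 0 → G k w ≠ 0 → ∀ j, |z j - w j| ≤ δ

lemma kk_ne {g : E n → ℂ} {h z : E n} (hk : kk g h z ≠ 0) : g (z + h) ≠ 0 ∧ g z ≠ 0 := by
  unfold kk at hk
  constructor
  · intro h0
    apply hk
    rw [h0, zero_mul]
  · intro h0
    apply hk
    rw [h0, map_zero, mul_zero]

lemma Pcs.out {M δ : ℝ} {G : ι → E n → ℂ} (hG : Pcs M δ G) (hδ : 0 ≤ δ) {h : E n}
    (hh : h ∉ Bx n δ) (k : ι) : kk (G k) h = 0 := by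
  ext z
  by_contra hc
  apply hh
  obtain ⟨h1, h2⟩ := kk_ne hc
  change ‖h.ofLp‖ ≤ δ
  rw [pi_norm_le_iff_of_nonneg hδ]
  intro j
  have := hG.dm k (z + h) z h1 h2 j
  simpa using this

lemma Pcs.sum_sq {M δ : ℝ} {G : ι → E n → ℂ} (hG : Pcs M δ G) (m : ι → ℂ) (h z : E n) :
    ‖∑ k, m k * kk (G k) h z‖ₑ ^ 2 ≤ ∑ k, ‖m k‖ₑ ^ 2 * ‖kk (G k) h z‖ₑ ^ 2 := by
  classical
  by_cases hz : ∃ k, G k z ≠ 0
  · obtain ⟨k, hk⟩ := hz
    have h1 : ∑ l, m l * kk (G l) h z = m k * kk (G k) h z := by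
      apply Finset.sum_eq_single k
      · intro l _ hl
        have h2 : G l z = 0 := (hG.dj k l (Ne.symm hl) z).resolve_left hk
        unfold kk
        rw [h2, map_zero, mul_zero, mul_zero]
      · intro h2
        exact absurd (Finset.mem_univ k) h2
    rw [h1, enorm_mul, mul_pow]
    exact Finset.single_le_sum (f := fun k => ‖m k‖ₑ ^ 2 * ‖kk (G k) h z‖ₑ ^ 2)
      (fun i _ => zero_le) (Finset.mem_univ k)
  · push Not at hz
    have h1 : ∑ l, m l * kk (G l) h z = 0 := by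
      apply Finset.sum_eq_zero
      intro l _
      unfold kk
      rw [hz l, map_zero, mul_zero, mul_zero]
    rw [h1]
    simp

lemma Pcs.BSsum {M δ : ℝ} {G : ι → E n → ℂ} (hG : Pcs M δ G) (m : ι → ℂ) (hm : ∀ k, ‖m k‖ ≤ 1)
    (h : E n) : BS (∑ _k : ι, M ^ 2) (fun z => ∑ k, m k * kk (G k) h z) := by
  refine ⟨?_, fun z => ?_, fun z hz => ?_⟩
  · exact Finset.measurable_sum _ fun k _ => ((hG.bs k).kk h).meas.const_mul _
  · refine (norm_sum_le _ _).trans (Finset.sum_le_sum fun k _ => ?_)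
    rw [norm_mul]
    exact (mul_le_of_le_one_left (norm_nonneg _) (hm k)).trans (((hG.bs k).kk h).bd z)
  · apply Finset.sum_eq_zero
    intro k _
    rw [((hG.bs k).kk h).supp z hz, mul_zero]

/-- bound for fixed `h` -/
lemma fixed_h (hn : 0 < n) (c : Fin n → ℝ) (c0 : ℝ) (hc0 : 0 < c0) (hc : ∀ j, c0 ≤ |c j|)
    (R δ : ℝ) (hδ : 0 < δ) {M : ℝ} {G : ι → E n → ℂ} (hG : Pcs M δ G) (m : ι → ℂ)
    (hm : ∀ k, ‖m k‖ ≤ 1) (h : E n) (hh : h.ofLp ≠ 0) :
    ∫⁻ t in Icc (-R) R, (‖∑ k, m k * 𝓕 (kk (G k) h) (dd (sT c t) h)‖ₑ ^ 2 +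
        ∑ k, ‖𝓕 (kk (G k) h) (dd (sT c t) h)‖ₑ ^ 2) ≤
      ∑ k, (ENNReal.ofReal (e2 n / (2 * c0)) * ((‖m k‖ₑ ^ 2 + ENNReal.ofReal (δ ^ (n - 1))) *
        ENNReal.ofReal ‖h.ofLp‖⁻¹) * ∫⁻ z, ‖G k z‖ₑ ^ 4) := by
  have hκ : 0 ≤ e2 n / (2 * c0) := by have := e2_pos n; positivity
  have hB : ∀ k, Measurable fun t : ℝ => 𝓕 (kk (G k) h) (dd (sT c t) h) := fun k =>
    (F_cont ((hG.bs k).kk h)).measurable.comp (dd_meas c h)
  have hsum : ∀ t, ∑ k, m k * 𝓕 (kk (G k) h) (dd (sT c t) h) =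
      𝓕 (fun z => ∑ k, m k * kk (G k) h z) (dd (sT c t) h) := by
    intro t
    rw [Real.fourier_eq]
    have e2 : ∀ v, Real.fourierChar (-⟪v, dd (sT c t) h⟫) • ∑ k, m k * kk (G k) h v =
        ∑ k, m k * (Real.fourierChar (-⟪v, dd (sT c t) h⟫) • kk (G k) h v) := by
      intro v
      rw [Finset.smul_sum]
      apply Finset.sum_congr rfl
      intro k _
      rw [Circle.smul_def, Circle.smul_def, smul_eq_mul, smul_eq_mul]
      ring
    simp only [e2]
    rw [integral_finsetSum _ fun k _ =>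
      ((Real.fourierIntegral_convergent_iff (μ := volume) _).2
        ((hG.bs k).kk h).int).const_mul _]
    apply Finset.sum_congr rfl
    intro k _
    rw [integral_const_mul, Real.fourier_eq]
  rw [lintegral_add_right _ (Finset.measurable_sum _ fun k _ => (hB k).enorm.pow_const 2),
    lintegral_finsetSum _ fun k _ => (hB k).enorm.pow_const 2]
  simp only [hsum]
  have h1 : ∫⁻ t in Icc (-R) R, ‖𝓕 (fun z => ∑ k, m k * kk (G k) h z) (dd (sT c t) h)‖ₑ ^ 2 ≤
      ENNReal.ofReal (e2 n / (2 * c0) * ‖h.ofLp‖⁻¹) * ∑ k, ‖m k‖ₑ ^ 2 * ∫⁻ z, ‖G k z‖ₑ ^ 4 := by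
    refine (time_int hn c c0 hc0 hc R h hh (hG.BSsum m hm h)).trans ?_
    gcongr
    calc ∫⁻ z, ‖∑ k, m k * kk (G k) h z‖ₑ ^ 2 ≤ ∫⁻ z, ∑ k, ‖m k‖ₑ ^ 2 * ‖kk (G k) h z‖ₑ ^ 2 :=
          lintegral_mono fun z => hG.sum_sq m h z
      _ = ∑ k, ‖m k‖ₑ ^ 2 * ∫⁻ z, ‖kk (G k) h z‖ₑ ^ 2 := by
          rw [lintegral_finsetSum _ fun k _ =>
            (((hG.bs k).kk h).meas.enorm.pow_const 2).const_mul _]
          apply Finset.sum_congr rfl
          intro k _
          rw [lintegral_const_mul _ (((hG.bs k).kk h).meas.enorm.pow_const 2)]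
      _ ≤ _ := Finset.sum_le_sum fun k _ => mul_le_mul' le_rfl (kk_sq (hG.bs k).meas h)
  have h2 : ∀ k, ∫⁻ t in Icc (-R) R, ‖𝓕 (kk (G k) h) (dd (sT c t) h)‖ₑ ^ 2 ≤
      ENNReal.ofReal (δ ^ (n - 1)) * (ENNReal.ofReal (e2 n / (2 * c0) * ‖h.ofLp‖⁻¹) *
        ∫⁻ z, ‖G k z‖ₑ ^ 4) := by
    intro k
    by_cases hk : ∃ a, G k a ≠ 0
    · obtain ⟨a, ha⟩ := hk
      refine (time_box hn c c0 hc0 hc R h hh ((hG.bs k).kk h) a δ hδ ?_).trans ?_
      · intro z hz j
        exact hG.dm k z a (kk_ne hz).2 ha j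
      · exact mul_le_mul' le_rfl (mul_le_mul' le_rfl (kk_sq (hG.bs k).meas h))
    · push Not at hk
      have h3 : kk (G k) h = 0 := by
        ext z
        unfold kk
        rw [hk z, map_zero, mul_zero]
        rfl
      have h4 : ∀ y, 𝓕 (kk (G k) h) y = 0 := by
        intro y
        rw [h3, Real.fourier_eq]
        simp
      simp [h4]
  refine (add_le_add h1 (Finset.sum_le_sum fun k _ => h2 k)).trans (le_of_eq ?_)
  rw [Finset.mul_sum, ← Finset.sum_add_distrib]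
  apply Finset.sum_congr rfl
  intro k _
  rw [ENNReal.ofReal_mul hκ]
  ring

/-- expectation of products -/
lemma indep_gen (P : Measure Ω) [IsProbabilityMeasure P] {Y Z : Ω → E n} (hY : Measurable Y)
    (hZ : Measurable Z) (hi : IndepFun Y Z P) (φ ψ : E n → ℂ) (m1 : Measurable φ)
    (m2 : Measurable ψ) :
    ∫ ω, φ (Y ω) * ψ (Z ω) ∂P = (∫ ω, φ (Y ω) ∂P) * ∫ ω, ψ (Z ω) ∂P :=
  (IndepFun.comp hi m1 m2).integral_fun_mul_eq_mul_integral (m1.comp hY).aestronglyMeasurable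
    (m2.comp hZ).aestronglyMeasurable

lemma ex_meas1 (h : E n) : Measurable (ex h) := by
  unfold ex
  fun_prop

/-- pairwise independence gives the second moment condition -/
lemma indep_cond (P : Measure Ω) [IsProbabilityMeasure P] {Y Z : Ω → E n} (hY : Measurable Y)
    (hZ : Measurable Z) (hi : IndepFun Y Z P) (h : E n) :
    ∫ ω, ex h (Y ω) * conj (ex h (Z ω)) ∂P = mm P Y h * conj (mm P Z h) := by
  have h2 := indep_gen P hY hZ hi (ex h) (fun y => conj (ex h y)) (ex_meas1 h)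
    (continuous_conj.measurable.comp (ex_meas1 h))
  rw [h2]
  unfold mm
  rw [integral_conj]

/-- the constant of the fourth moment -/
noncomputable def DD (n : ℕ) (A δ ρ : ℝ) : ℝ≥0∞ :=
  (J1 n + ENNReal.ofReal A) * ENNReal.ofReal ((min δ (1 / ρ)) ^ (n - 1)) +
    ENNReal.ofReal (δ ^ (n - 1)) * (ENNReal.ofReal (δ ^ (n - 1)) * J1 n)

/-- swapping the integrals -/
lemma swap3 (c : Fin n → ℝ) (R : ℝ) {G : ι → E n → ℂ}
    (hG : ∀ k, Measurable (G k)) (P : Measure Ω) [IsProbabilityMeasure P] (Y : ι → Ω → E n)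
    (hY : ∀ k, Measurable (Y k)) :
    ∫⁻ ω, (∫⁻ t in Icc (-R) R, ∫⁻ h,
      ‖∑ k, ex h (Y k ω) * 𝓕 (kk (G k) h) (dd (sT c t) h)‖ₑ ^ 2) ∂P =
      ∫⁻ h, (∫⁻ t in Icc (-R) R,
        (∫⁻ ω, ‖∑ k, ex h (Y k ω) * 𝓕 (kk (G k) h) (dd (sT c t) h)‖ₑ ^ 2 ∂P)) := by
  have s1 : ∀ ω, ∫⁻ t in Icc (-R) R, ∫⁻ h,
      ‖∑ k, ex h (Y k ω) * 𝓕 (kk (G k) h) (dd (sT c t) h)‖ₑ ^ 2 =
      ∫⁻ h, ∫⁻ t in Icc (-R) R,
        ‖∑ k, ex h (Y k ω) * 𝓕 (kk (G k) h) (dd (sT c t) h)‖ₑ ^ 2 := by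
    intro ω
    apply lintegral_lintegral_swap
    apply Measurable.aemeasurable
    apply Measurable.pow_const
    apply Measurable.enorm
    refine Finset.measurable_sum _ fun k _ => Measurable.mul ?_ ?_
    · exact ex_meas' measurable_snd measurable_const
    · exact FK_meas' c (hG k) measurable_snd measurable_fst
  simp only [s1]
  rw [lintegral_lintegral_swap]
  · apply lintegral_congr
    intro h
    apply lintegral_lintegral_swap
    apply Measurable.aemeasurable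
    apply Measurable.pow_const
    apply Measurable.enorm
    refine Finset.measurable_sum _ fun k _ => Measurable.mul ?_ ?_
    · exact ex_meas' measurable_const ((hY k).comp measurable_fst)
    · exact FK_meas' c (hG k) measurable_const measurable_snd
  · apply Measurable.aemeasurable
    have m3 : Measurable fun p : (Ω × E n) × ℝ =>
        ‖∑ k, ex p.1.2 (Y k p.1.1) * 𝓕 (kk (G k) p.1.2) (dd (sT c p.2) p.1.2)‖ₑ ^ 2 := by
      apply Measurable.pow_const
      apply Measurable.enorm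
      refine Finset.measurable_sum _ fun k _ => Measurable.mul ?_ ?_
      · exact ex_meas' (measurable_snd.comp measurable_fst)
          ((hY k).comp (measurable_fst.comp measurable_fst))
      · exact FK_meas' c (hG k) (measurable_snd.comp measurable_fst) measurable_snd
    exact m3.lintegral_prod_right' (ν := volume.restrict (Icc (-R) R))

theorem four_rand (hn : 1 ≤ n) (c : Fin n → ℝ) (c0 : ℝ) (hc0 : 0 < c0) (hc : ∀ j, c0 ≤ |c j|)
    (R δ ρ A : ℝ) (hδ : 0 < δ) (hρ : 0 < ρ) (hA : 0 ≤ A) {M : ℝ} {G : ι → E n → ℂ}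
    (hG : Pcs M δ G) (P : Measure Ω) [IsProbabilityMeasure P] (Y : ι → Ω → E n)
    (hY : ∀ k, Measurable (Y k)) (hi : ∀ k l, k ≠ l → IndepFun (Y k) (Y l) P)
    (hd : ∀ k S, MeasurableSet S → P (Y k ⁻¹' S) ≤ ENNReal.ofReal (A / ρ ^ n) * volume S) :
    ∫⁻ ω, (∫⁻ t in Icc (-R) R, ∫⁻ x, (∑ k, ‖𝓕 (ch (sT c t) (G k)) (x - Y k ω)‖ₑ ^ 2) ^ 2) ∂P ≤
      ENNReal.ofReal (e2 n / (2 * c0)) * DD n A δ ρ * ∑ k, ∫⁻ z, ‖G k z‖ₑ ^ 4 := by
  simp only [sqf_tr hG.bs]
  rw [swap3 c R (fun k => (hG.bs k).meas) P Y hY]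
  have e2' : ∀ h : E n, h.ofLp ≠ 0 →
      ∫⁻ t in Icc (-R) R, (∫⁻ ω, ‖∑ k, ex h (Y k ω) * 𝓕 (kk (G k) h) (dd (sT c t) h)‖ₑ ^ 2 ∂P) ≤
      (Bx n δ).indicator (fun h => ∑ k, (ENNReal.ofReal (e2 n / (2 * c0)) *
        ((‖mm P (Y k) h‖ₑ ^ 2 + ENNReal.ofReal (δ ^ (n - 1))) *
        ENNReal.ofReal ‖h.ofLp‖⁻¹) * ∫⁻ z, ‖G k z‖ₑ ^ 4)) h := by
    intro h hh
    have h1 : ∫⁻ t in Icc (-R) R, (∫⁻ ω, ‖∑ k, ex h (Y k ω) * 𝓕 (kk (G k) h) (dd (sT c t) h)‖ₑ ^ 2 ∂P) ≤
        ∫⁻ t in Icc (-R) R, (‖∑ k, mm P (Y k) h * 𝓕 (kk (G k) h) (dd (sT c t) h)‖ₑ ^ 2 +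
        ∑ k, ‖𝓕 (kk (G k) h) (dd (sT c t) h)‖ₑ ^ 2) := by
      apply lintegral_mono
      intro t
      exact mom2 P (fun k ω => ex h (Y k ω))
        (fun k => ex_meas' measurable_const (hY k))
        (fun k ω => (ex_norm _ _).le)
        (fun k l hkl => indep_cond P (hY k) (hY l) (hi k l hkl) h)
        (fun k => 𝓕 (kk (G k) h) (dd (sT c t) h))
    by_cases hb : h ∈ Bx n δ
    · rw [indicator_of_mem hb]
      exact h1.trans (fixed_h hn c c0 hc0 hc R δ hδ hG _ (fun k => mm_le P (Y k) h) h hh)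
    · rw [indicator_of_notMem hb]
      refine h1.trans (le_of_eq ?_)
      have h4 : ∀ k y, 𝓕 (kk (G k) h) y = 0 := by
        intro k y
        rw [hG.out hδ.le hb k, Real.fourier_eq]
        simp
      simp [h4]
  have hae : ∀ᵐ h : E n, h.ofLp ≠ 0 := by
    filter_upwards [ae_ne_zero n] with h hh h0
    have j0 : Fin n := ⟨0, by omega⟩
    exact hh j0 (congrFun h0 j0)
  refine (lintegral_mono_ae (hae.mono e2')).trans ?_
  rw [lintegral_indicator (Bx_meas δ)]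
  have hmmM : ∀ k, Measurable fun h : E n => (‖mm P (Y k) h‖ₑ ^ 2 + ENNReal.ofReal (δ ^ (n - 1))) *
        ENNReal.ofReal ‖h.ofLp‖⁻¹ := by
    intro k
    exact (((mm_meas P (hY k)).enorm.pow_const 2).add_const _).mul
      (ofLp_meas.norm.inv).ennreal_ofReal
  rw [lintegral_finsetSum _ fun k _ => ((hmmM k).const_mul _).mul_const _, Finset.mul_sum]
  apply Finset.sum_le_sum
  intro k _
  rw [lintegral_mul_const _ ((hmmM k).const_mul _), lintegral_const_mul _ (hmmM k)]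
  gcongr
  simp only [add_mul]
  have hm1 : Measurable fun h : E n => ‖mm P (Y k) h‖ₑ ^ 2 * ENNReal.ofReal ‖h.ofLp‖⁻¹ :=
    ((mm_meas P (hY k)).enorm.pow_const 2).mul (ofLp_meas.norm.inv).ennreal_ofReal
  rw [lintegral_add_left hm1, lintegral_const_mul' _ _ ENNReal.ofReal_ne_top, J_scale hn δ hδ]
  unfold DD
  gcongr
  exact deco hn P (hY k) A ρ δ hA hρ hδ (hd k)

end Pool.Agent.N238.CR
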