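import Mathlib
import Pool.Agent.N238.CR.F
import Pool.Agent.W777.ST.Lev
import Pool.Agent.H438R2.RZ.M1
set_option autoImplicit false

/-! The estimate for `2 < q < 4`. -/

namespace Pool.Agent.N238.CR

open MeasureTheory Set Complex FourierTransform ProbabilityTheory
open scoped ENNReal RealInnerProductSpace ComplexConjugate
open Pool.Agent.H153R4 Pool.Agent.W777.ST
open Pool.Agent.H438R2.RZ (marc24)

variable {n : ℕ} {ι : Type} [Fintype ι]

/-- the randomised extension -/
noncomputable def FF {Ω₁ Ω₂ : Type} (c : Fin n → ℝ) (τ : ι → Set (E n)) (u : ι → Ω₁ → ℂ)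
    (Y : ι → Ω₂ → E n) (f : E n → ℂ) (w : ((Ω₁ × Ω₂) × ℝ) × E n) : ℂ :=
  ∑ k, u k w.1.1.1 * 𝓕 (ch (sT c w.1.2) ((τ k).indicator f)) (w.2 - Y k w.1.1.2)

lemma Fch_meas' {α : Type*} [MeasurableSpace α] (c : Fin n → ℝ) {g : E n → ℂ} (hg : Measurable g)
    {f : α → E n} {τ : α → ℝ} (hf : Measurable f) (hτ : Measurable τ) :
    Measurable fun a => 𝓕 (ch (sT c (τ a)) g) (f a) := by
  simp only [Real.fourier_eq]
  have h1 : Measurable fun r : α × E n =>
      Real.fourierChar (-⟪r.2, f r.1⟫) • ch (sT c (τ r.1)) g r.2 := by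
    have hf1 : Measurable fun r : α × E n => f r.1 := hf.comp measurable_fst
    have hτ1 : Measurable fun r : α × E n => τ r.1 := hτ.comp measurable_fst
    have hin : Measurable fun r : α × E n => -⟪r.2, f r.1⟫ := (measurable_snd.inner hf1).neg
    have hk : Measurable fun r : α × E n => ch (sT c (τ r.1)) g r.2 := by
      unfold ch sT
      have hsum : Measurable fun r : α × E n =>
          -(2 * Real.pi * ∑ j, (-(τ r.1 * c j)) * r.2 j ^ 2) := by
        refine (measurable_const.mul (Finset.measurable_sum _ fun j _ => ?_)).neg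
        exact ((hτ1.mul_const (c j)).neg).mul (by fun_prop)
      exact (Complex.measurable_exp.comp
        ((Complex.measurable_ofReal.comp hsum).mul measurable_const)).mul
        (hg.comp measurable_snd)
    have hc : Measurable fun r : α × E n =>
        ((Real.fourierChar (-⟪r.2, f r.1⟫) : Circle) : ℂ) :=
      (continuous_subtype_val.comp Real.continuous_fourierChar).measurable.comp hin
    exact hc.mul hk
  exact (h1.stronglyMeasurable.integral_prod_right' (ν := volume)).measurable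

lemma FF_meas {Ω₁ Ω₂ : Type} [MeasurableSpace Ω₁] [MeasurableSpace Ω₂] (c : Fin n → ℝ)
    {τ : ι → Set (E n)} (hτ : ∀ k, MeasurableSet (τ k)) {u : ι → Ω₁ → ℂ}
    (hu : ∀ k, Measurable (u k)) {Y : ι → Ω₂ → E n} (hY : ∀ k, Measurable (Y k)) {f : E n → ℂ}
    (hf : Measurable f) : Measurable (FF c τ u Y f) := by
  unfold FF
  refine Finset.measurable_sum _ fun k _ => Measurable.mul ?_ ?_
  · exact (hu k).comp (measurable_fst.comp (measurable_fst.comp measurable_fst))
  · refine Fch_meas' c (hf.indicator (hτ k)) ?_ (measurable_snd.comp measurable_fst)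
    exact measurable_snd.sub ((hY k).comp (measurable_snd.comp (measurable_fst.comp measurable_fst)))

/-- the randomised function -/
noncomputable def VV (τ : ι → Set (E n)) (u : ι → ℂ) (y : ι → E n) (f : E n → ℂ) (z : E n) : ℂ :=
  ∑ k, u k * md (y k) ((τ k).indicator f) z

lemma VV_le {τ : ι → Set (E n)} (hd : Pairwise fun k l => Disjoint (τ k) (τ l)) {u : ι → ℂ}
    (hu : ∀ k, ‖u k‖ ≤ 1) (y : ι → E n) (f : E n → ℂ) (z : E n) : ‖VV τ u y f z‖ ≤ ‖f z‖ := by
  classical
  unfold VV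
  by_cases hz : ∃ k, z ∈ τ k
  · obtain ⟨k, hk⟩ := hz
    have h1 : ∑ l, u l * md (y l) ((τ l).indicator f) z = u k * md (y k) ((τ k).indicator f) z := by
      apply Finset.sum_eq_single k
      · intro l _ hl
        have h2 : z ∉ τ l := fun h3 => Set.disjoint_left.1 (hd hl) h3 hk
        unfold md
        rw [indicator_of_notMem h2, mul_zero, mul_zero]
      · intro h2
        exact absurd (Finset.mem_univ k) h2
    rw [h1]
    unfold md
    rw [indicator_of_mem hk, norm_mul, norm_mul, ex_norm, one_mul]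
    exact mul_le_of_le_one_left (norm_nonneg _) (hu k)
  · push Not at hz
    have h1 : ∑ l, u l * md (y l) ((τ l).indicator f) z = 0 := by
      apply Finset.sum_eq_zero
      intro l _
      unfold md
      rw [indicator_of_notMem (hz l), mul_zero, mul_zero]
    rw [h1, norm_zero]
    exact norm_nonneg _

lemma VV_meas {τ : ι → Set (E n)} (hτ : ∀ k, MeasurableSet (τ k)) (u : ι → ℂ) (y : ι → E n)
    {f : E n → ℂ} (hf : Measurable f) : Measurable (VV τ u y f) := by
  unfold VV md
  refine Finset.measurable_sum _ fun k _ => Measurable.const_mul (Measurable.mul ?_ ?_) _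
  · exact ex_meas' measurable_id measurable_const
  · exact hf.indicator (hτ k)

lemma md_int {g : E n → ℂ} (hg : Integrable g) (y : E n) : Integrable (md y g) := by
  refine hg.mono ?_ (ae_of_all _ fun z => ?_)
  · unfold md
    exact (ex_meas' measurable_id measurable_const).aestronglyMeasurable.mul hg.1
  · unfold md
    rw [norm_mul, ex_norm, one_mul]

/-- the Fourier transform of the randomised function -/
lemma F_VV {τ : ι → Set (E n)} (hτ : ∀ k, MeasurableSet (τ k)) (u : ι → ℂ) (y : ι → E n)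
    {f : E n → ℂ} (hf : Measurable f) (hi : Integrable f) (s : Fin n → ℝ) (x : E n) :
    𝓕 (ch s (VV τ u y f)) x = ∑ k, u k * 𝓕 (ch s ((τ k).indicator f)) (x - y k) := by
  have hk : ∀ k, Integrable (ch s (md (y k) ((τ k).indicator f))) := by
    intro k
    apply ch_int _ (md_int (hi.indicator (hτ k)) (y k))
    unfold md
    exact (ex_meas' measurable_id measurable_const).mul (hf.indicator (hτ k))
  have e2 : ∀ v, Real.fourierChar (-⟪v, x⟫) • ch s (VV τ u y f) v =
      ∑ k, u k * (Real.fourierChar (-⟪v, x⟫) • ch s (md (y k) ((τ k).indicator f)) v) := by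
    intro v
    unfold ch VV
    rw [Circle.smul_def, smul_eq_mul, Finset.mul_sum, Finset.mul_sum]
    apply Finset.sum_congr rfl
    intro k _
    rw [Circle.smul_def, smul_eq_mul]
    ring
  rw [Real.fourier_eq]
  simp only [e2]
  rw [integral_finsetSum _ fun k _ =>
    ((Real.fourierIntegral_convergent_iff (μ := volume) _).2 (hk k)).const_mul _]
  apply Finset.sum_congr rfl
  intro k _
  rw [integral_const_mul, ← Real.fourier_eq, F_md]

/-- the second moment for fixed parameters -/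
lemma two_fix {τ : ι → Set (E n)} (hτ : ∀ k, MeasurableSet (τ k))
    (hd : Pairwise fun k l => Disjoint (τ k) (τ l)) {u : ι → ℂ}
    (hu : ∀ k, ‖u k‖ ≤ 1) (y : ι → E n) {f : E n → ℂ} (hf : Measurable f) (hi : Integrable f)
    (h2 : MemLp f 2) (s : Fin n → ℝ) :
    ∫⁻ x, ‖∑ k, u k * 𝓕 (ch s ((τ k).indicator f)) (x - y k)‖ₑ ^ 2 ≤ ∫⁻ z, ‖f z‖ₑ ^ 2 := by
  simp only [← F_VV hτ u y hf hi s]
  have hm := VV_meas hτ u y hf
  have hle : ∀ z, ‖VV τ u y f z‖ ≤ ‖f z‖ := VV_le hd hu y f
  rw [two_gen hm (hi.mono hm.aestronglyMeasurable (ae_of_all _ hle))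
    (h2.mono hm.aestronglyMeasurable (ae_of_all _ hle)) s]
  apply lintegral_mono
  intro z
  refine pow_le_pow_left' ?_ 2
  rw [← ofReal_norm, ← ofReal_norm]
  exact ENNReal.ofReal_le_ofReal (hle z)

lemma FF_add {Ω₁ Ω₂ : Type} (c : Fin n → ℝ) {τ : ι → Set (E n)} (hτ : ∀ k, MeasurableSet (τ k))
    (u : ι → Ω₁ → ℂ) (Y : ι → Ω₂ → E n) {f : E n → ℂ} (hf : Measurable f) (hi : Integrable f)
    {S : Set (E n)} (hS : MeasurableSet S) (w : ((Ω₁ × Ω₂) × ℝ) × E n) :
    FF c τ u Y f w = FF c τ u Y (S.indicator f) w + FF c τ u Y (Sᶜ.indicator f) w := by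
  unfold FF
  rw [← Finset.sum_add_distrib]
  apply Finset.sum_congr rfl
  intro k _
  rw [← mul_add]
  congr 1
  have hii : ∀ T : Set (E n), MeasurableSet T →
      Integrable (ch (sT c w.1.2) ((τ k).indicator (T.indicator f))) := fun T hT =>
    ch_int ((hf.indicator hT).indicator (hτ k)) ((hi.indicator hT).indicator (hτ k)) _
  rw [Real.fourier_eq, Real.fourier_eq, Real.fourier_eq, ← integral_add
    ((Real.fourierIntegral_convergent_iff (μ := volume) _).2 (hii S hS))
    ((Real.fourierIntegral_convergent_iff (μ := volume) _).2 (hii Sᶜ hS.compl))]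
  congr 1
  ext v
  rw [← smul_add]
  congr 1
  unfold ch
  rw [← mul_add]
  congr 1
  by_cases hk : v ∈ τ k
  · rw [indicator_of_mem hk, indicator_of_mem hk, indicator_of_mem hk]
    by_cases hv : v ∈ S
    · rw [indicator_of_mem hv, indicator_of_notMem (by simpa using hv), add_zero]
    · rw [indicator_of_notMem hv, indicator_of_mem (by simpa using hv), zero_add]
  · rw [indicator_of_notMem hk, indicator_of_notMem hk, indicator_of_notMem hk, add_zero]

/-- the measure -/
noncomputable def nu {Ω₁ Ω₂ : Type} [MeasurableSpace Ω₁] [MeasurableSpace Ω₂] (n : ℕ)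
    (P₁ : Measure Ω₁) (P₂ : Measure Ω₂) (R : ℝ) : Measure (((Ω₁ × Ω₂) × ℝ) × E n) :=
  ((P₁.prod P₂).prod (volume.restrict (Icc (-R) R))).prod volume

lemma nu_lint {Ω₁ Ω₂ : Type} [MeasurableSpace Ω₁] [MeasurableSpace Ω₂]
    (P₁ : Measure Ω₁) (P₂ : Measure Ω₂) [IsProbabilityMeasure P₁] [IsProbabilityMeasure P₂] (R : ℝ)
    {H : ((Ω₁ × Ω₂) × ℝ) × E n → ℝ≥0∞} (hH : Measurable H) :
    ∫⁻ w, H w ∂(nu n P₁ P₂ R) =
      ∫⁻ ω₂, (∫⁻ t in Icc (-R) R, ∫⁻ x, (∫⁻ ω₁, H (((ω₁, ω₂), t), x) ∂P₁)) ∂P₂ := by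
  unfold nu
  rw [lintegral_prod _ hH.aemeasurable]
  have h1 : Measurable fun p : (Ω₁ × Ω₂) × ℝ => ∫⁻ x, H (p, x) := hH.lintegral_prod_right'
  rw [lintegral_prod _ h1.aemeasurable]
  have h2 : Measurable fun p : Ω₁ × Ω₂ => ∫⁻ t in Icc (-R) R, ∫⁻ x, H ((p, t), x) :=
    h1.lintegral_prod_right'
  rw [lintegral_prod_symm _ h2.aemeasurable]
  apply lintegral_congr
  intro ω₂
  have h3 : Measurable fun p : Ω₁ × ℝ => ∫⁻ x, H (((p.1, ω₂), p.2), x) :=
    h1.comp (f := fun p : Ω₁ × ℝ => (((p.1, ω₂), p.2) : (Ω₁ × Ω₂) × ℝ)) (by fun_prop)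
  rw [lintegral_lintegral_swap h3.aemeasurable]
  apply lintegral_congr
  intro t
  rw [lintegral_lintegral_swap]
  exact (hH.comp (f := fun p : Ω₁ × E n => ((((p.1, ω₂), t), p.2) : ((Ω₁ × Ω₂) × ℝ) × E n))
    (by fun_prop)).aemeasurable

end Pool.Agent.N238.CR
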