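import Mathlib
import Pool.Agent.N238.CR.G
import Pool.Agent.H438R2.RZ.M1
set_option autoImplicit false

/-! The estimate for `2 < q < 4`. -/

namespace Pool.Agent.N238.CR

open MeasureTheory Set Complex FourierTransform ProbabilityTheory
open scoped ENNReal RealInnerProductSpace ComplexConjugate
open Pool.Agent.H153R4 Pool.Agent.W777.ST
open Pool.Agent.H438R2.RZ (marc24)

variable {n : ℕ} {ι : Type} [Fintype ι] {Ω₁ Ω₂ : Type} [MeasurableSpace Ω₁] [MeasurableSpace Ω₂]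

lemma two_FF (c : Fin n → ℝ) {τ : ι → Set (E n)} (hτ : ∀ k, MeasurableSet (τ k))
    (hd : Pairwise fun k l => Disjoint (τ k) (τ l)) (P₁ : Measure Ω₁) (P₂ : Measure Ω₂)
    [IsProbabilityMeasure P₁] [IsProbabilityMeasure P₂] (R : ℝ) {u : ι → Ω₁ → ℂ}
    (hu : ∀ k, Measurable (u k)) (hu1 : ∀ k ω, ‖u k ω‖ ≤ 1) {Y : ι → Ω₂ → E n}
    (hY : ∀ k, Measurable (Y k)) {f : E n → ℂ} (hf : Measurable f) (hi : Integrable f)
    (h2 : MemLp f 2) :
    ∫⁻ w, ‖FF c τ u Y f w‖ₑ ^ 2 ∂(nu n P₁ P₂ R) ≤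
      ENNReal.ofReal (2 * R) * ∫⁻ z, ‖f z‖ₑ ^ 2 := by
  have hm := ((FF_meas c hτ hu hY hf).enorm.pow_const 2)
  unfold nu
  rw [lintegral_prod _ hm.aemeasurable]
  calc ∫⁻ p, (∫⁻ x, ‖FF c τ u Y f (p, x)‖ₑ ^ 2)
        ∂((P₁.prod P₂).prod (volume.restrict (Icc (-R) R)))
      ≤ ∫⁻ _p, (∫⁻ z, ‖f z‖ₑ ^ 2) ∂((P₁.prod P₂).prod (volume.restrict (Icc (-R) R))) := by
        apply lintegral_mono
        intro p
        exact two_fix hτ hd (fun k => hu1 k p.1.1) (fun k => Y k p.1.2) hf hi h2 (sT c p.2)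
    _ = _ := by
        rw [lintegral_const, mul_comm]
        congr 1
        rw [← univ_prod_univ, Measure.prod_prod, Measure.restrict_apply_univ, measure_univ,
          one_mul, Real.volume_Icc]
        congr 1
        ring

lemma sum_ind {τ : ι → Set (E n)} (hd : Pairwise fun k l => Disjoint (τ k) (τ l)) (f : E n → ℂ)
    (z : E n) : ∑ k, ‖(τ k).indicator f z‖ₑ ^ 4 ≤ ‖f z‖ₑ ^ 4 := by
  classical
  by_cases hz : ∃ k, z ∈ τ k
  · obtain ⟨k, hk⟩ := hz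
    have h1 : ∑ l, ‖(τ l).indicator f z‖ₑ ^ 4 = ‖(τ k).indicator f z‖ₑ ^ 4 := by
      apply Finset.sum_eq_single k
      · intro l _ hl
        have h2 : z ∉ τ l := fun h3 => Set.disjoint_left.1 (hd hl) h3 hk
        rw [indicator_of_notMem h2]
        simp
      · intro h2
        exact absurd (Finset.mem_univ k) h2
    rw [h1, indicator_of_mem hk]
  · push Not at hz
    have h1 : ∑ l, ‖(τ l).indicator f z‖ₑ ^ 4 = 0 := by
      apply Finset.sum_eq_zero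
      intro l _
      rw [indicator_of_notMem (hz l)]
      simp
    rw [h1]
    exact zero_le

lemma four_FF (hn : 1 ≤ n) (c : Fin n → ℝ) (c0 : ℝ) (hc0 : 0 < c0) (hc : ∀ j, c0 ≤ |c j|)
    (R δ ρ A : ℝ) (hδ : 0 < δ) (hρ : 0 < ρ) (hA : 0 ≤ A)
    {τ : ι → Set (E n)} (hτ : ∀ k, MeasurableSet (τ k))
    (hd : Pairwise fun k l => Disjoint (τ k) (τ l))
    (hdm : ∀ k, ∀ z ∈ τ k, ∀ w ∈ τ k, ∀ j, |z j - w j| ≤ δ)
    (P₁ : Measure Ω₁) (P₂ : Measure Ω₂)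
    [IsProbabilityMeasure P₁] [IsProbabilityMeasure P₂] {u : ι → Ω₁ → ℂ}
    (hu : ∀ k, Measurable (u k)) (hu1 : ∀ k ω, ‖u k ω‖ ≤ 1)
    (hp : ∀ i j k l, ¬((i = j ∧ k = l) ∨ (i = k ∧ j = l) ∨ (i = l ∧ j = k)) →
      ∫ ω, u i ω * u j ω * conj (u k ω) * conj (u l ω) ∂P₁ = 0)
    {Y : ι → Ω₂ → E n} (hY : ∀ k, Measurable (Y k))
    (hi : ∀ k l, k ≠ l → IndepFun (Y k) (Y l) P₂)
    (hde : ∀ k S, MeasurableSet S → P₂ (Y k ⁻¹' S) ≤ ENNReal.ofReal (A / ρ ^ n) * volume S)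
    {M : ℝ} {f : E n → ℂ} (hf : BS M f) :
    ∫⁻ w, ‖FF c τ u Y f w‖ₑ ^ 4 ∂(nu n P₁ P₂ R) ≤
      3 * (ENNReal.ofReal (e2 n / (2 * c0)) * DD n A δ ρ) * ∫⁻ z, ‖f z‖ₑ ^ 4 := by
  have hbs : ∀ k, BS M ((τ k).indicator f) := by
    intro k
    refine ⟨hf.meas.indicator (hτ k), fun z => ?_, fun z hz => ?_⟩
    · by_cases h : z ∈ τ k
      · rw [indicator_of_mem h]
        exact hf.bd z
      · rw [indicator_of_notMem h, norm_zero]
        exact hf.M0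
    · by_cases h : z ∈ τ k
      · rw [indicator_of_mem h]
        exact hf.supp z hz
      · rw [indicator_of_notMem h]
  have hne : ∀ k z, (τ k).indicator f z ≠ 0 → z ∈ τ k := by
    intro k z hz
    by_contra hc
    exact hz (indicator_of_notMem hc _)
  have hP : Pcs M δ (fun k => (τ k).indicator f) := by
    refine ⟨hbs, ?_, ?_⟩
    · intro k l hkl z
      by_contra hc
      push Not at hc
      exact Set.disjoint_left.1 (hd hkl) (hne k z hc.1) (hne l z hc.2)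
    · intro k z w hz hw j
      exact hdm k z (hne k z hz) w (hne k w hw) j
  rw [nu_lint P₁ P₂ R ((FF_meas c hτ hu hY hf.meas).enorm.pow_const 4)]
  have h1 : ∀ ω₂ t x, ∫⁻ ω₁, ‖FF c τ u Y f (((ω₁, ω₂), t), x)‖ₑ ^ 4 ∂P₁ ≤
      3 * (∑ k, ‖𝓕 (ch (sT c t) ((τ k).indicator f)) (x - Y k ω₂)‖ₑ ^ 2) ^ 2 := by
    intro ω₂ t x
    exact mom4 P₁ u hu hu1 hp (fun k => 𝓕 (ch (sT c t) ((τ k).indicator f)) (x - Y k ω₂))
  calc ∫⁻ ω₂, (∫⁻ t in Icc (-R) R, ∫⁻ x,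
        (∫⁻ ω₁, ‖FF c τ u Y f (((ω₁, ω₂), t), x)‖ₑ ^ 4 ∂P₁)) ∂P₂
      ≤ ∫⁻ ω₂, (∫⁻ t in Icc (-R) R, ∫⁻ x,
        3 * (∑ k, ‖𝓕 (ch (sT c t) ((τ k).indicator f)) (x - Y k ω₂)‖ₑ ^ 2) ^ 2) ∂P₂ :=
        lintegral_mono fun ω₂ => lintegral_mono fun t => lintegral_mono fun x => h1 ω₂ t x
    _ = 3 * ∫⁻ ω₂, (∫⁻ t in Icc (-R) R, ∫⁻ x,
        (∑ k, ‖𝓕 (ch (sT c t) ((τ k).indicator f)) (x - Y k ω₂)‖ₑ ^ 2) ^ 2) ∂P₂ := by
        simp only [lintegral_const_mul' _ _ (ENNReal.ofNat_ne_top : (3 : ℝ≥0∞) ≠ ⊤)]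
    _ ≤ 3 * (ENNReal.ofReal (e2 n / (2 * c0)) * DD n A δ ρ *
          ∑ k, ∫⁻ z, ‖(τ k).indicator f z‖ₑ ^ 4) := by
        gcongr
        exact four_rand hn c c0 hc0 hc R δ ρ A hδ hρ hA hP P₂ Y hY hi hde
    _ ≤ 3 * (ENNReal.ofReal (e2 n / (2 * c0)) * DD n A δ ρ * ∫⁻ z, ‖f z‖ₑ ^ 4) := by
        gcongr
        rw [← lintegral_finsetSum _ fun k _ => (hbs k).meas.enorm.pow_const 4]
        exact lintegral_mono fun z => sum_ind hd f z
    _ = _ := by ring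

/-- the gain -/
noncomputable def XX (δ ρ : ℝ) : ℝ := δ ^ 2 + min δ (1 / ρ)

lemma XX_pos {δ ρ : ℝ} (hδ : 0 < δ) (hρ : 0 < ρ) : 0 < XX δ ρ := by
  unfold XX
  have : 0 < min δ (1 / ρ) := lt_min hδ (by positivity)
  positivity

/-- the constant -/
noncomputable def KK (n : ℕ) (A c0 : ℝ) : ℝ :=
  3 * (e2 n / (2 * c0) * (2 * (J1 n).toReal + A + 1))

lemma KK_pos (n : ℕ) {A c0 : ℝ} (hA : 0 ≤ A) (hc0 : 0 < c0) : 0 < KK n A c0 := by
  unfold KK
  have := e2_pos n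
  have : 0 ≤ (J1 n).toReal := ENNReal.toReal_nonneg
  positivity

lemma DD_le (hn : 2 ≤ n) {A c0 δ ρ : ℝ} (hA : 0 ≤ A) (hc0 : 0 < c0) (hδ : 0 < δ) (hρ : 0 < ρ) :
    3 * (ENNReal.ofReal (e2 n / (2 * c0)) * DD n A δ ρ) ≤
      ENNReal.ofReal (KK n A c0 * XX δ ρ ^ (n - 1)) := by
  have hJ := J1_fin hn
  have he := e2_pos n
  have hmin : 0 < min δ (1 / ρ) := lt_min hδ (by positivity)
  have hX := XX_pos hδ hρ
  have hJ0 : 0 ≤ (J1 n).toReal := ENNReal.toReal_nonneg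
  have e1 : DD n A δ ρ ≤ ENNReal.ofReal ((2 * (J1 n).toReal + A + 1) * XX δ ρ ^ (n - 1)) := by
    unfold DD
    rw [← ENNReal.ofReal_toReal hJ.ne, ← ENNReal.ofReal_add hJ0 hA,
      ← ENNReal.ofReal_mul (by positivity), ← ENNReal.ofReal_mul (by positivity),
      ← ENNReal.ofReal_mul (by positivity), ← ENNReal.ofReal_add (by positivity) (by positivity)]
    apply ENNReal.ofReal_le_ofReal
    rw [ENNReal.toReal_ofReal hJ0]
    have a1 : (min δ (1 / ρ)) ^ (n - 1) ≤ XX δ ρ ^ (n - 1) := by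
      apply pow_le_pow_left₀ hmin.le
      unfold XX
      nlinarith
    have a2 : δ ^ (n - 1) * δ ^ (n - 1) ≤ XX δ ρ ^ (n - 1) := by
      rw [← mul_pow, ← sq]
      apply pow_le_pow_left₀ (by positivity)
      unfold XX
      linarith
    have a3 : 0 ≤ XX δ ρ ^ (n - 1) := by positivity
    calc ((J1 n).toReal + A) * min δ (1 / ρ) ^ (n - 1) + δ ^ (n - 1) *
          (δ ^ (n - 1) * (J1 n).toReal)
        = ((J1 n).toReal + A) * min δ (1 / ρ) ^ (n - 1) +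
          (J1 n).toReal * (δ ^ (n - 1) * δ ^ (n - 1)) := by ring
      _ ≤ ((J1 n).toReal + A) * XX δ ρ ^ (n - 1) + (J1 n).toReal * XX δ ρ ^ (n - 1) := by gcongr
      _ ≤ _ := by nlinarith
  refine (mul_le_mul' le_rfl (mul_le_mul' le_rfl e1)).trans (le_of_eq ?_)
  have e3 : (3 : ℝ≥0∞) = ENNReal.ofReal 3 := by norm_num
  rw [e3, ← ENNReal.ofReal_mul (by positivity), ← ENNReal.ofReal_mul (by norm_num)]
  congr 1
  unfold KK
  ring

/-- The estimate. -/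
theorem rand_q (hn : 2 ≤ n) (c : Fin n → ℝ) (hc : ∀ j, c j ≠ 0) (q A : ℝ) (hq2 : 2 < q)
    (hq4 : q < 4) (hA : 0 ≤ A) :
    ∃ C : ℝ, 0 < C ∧ ∀ (R δ ρ : ℝ), 0 < R → 0 < δ → 0 < ρ →
      ∀ {ι Ω₁ Ω₂ : Type} [Fintype ι] [MeasurableSpace Ω₁] [MeasurableSpace Ω₂]
        (τ : ι → Set (E n)), (∀ k, MeasurableSet (τ k)) →
        (Pairwise fun k l => Disjoint (τ k) (τ l)) →
        (∀ k, ∀ z ∈ τ k, ∀ w ∈ τ k, ∀ j, |z j - w j| ≤ δ) →
        ∀ (P₁ : Measure Ω₁) (P₂ : Measure Ω₂) [IsProbabilityMeasure P₁] [IsProbabilityMeasure P₂]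
        (u : ι → Ω₁ → ℂ), (∀ k, Measurable (u k)) → (∀ k ω, ‖u k ω‖ ≤ 1) →
        (∀ i j k l, ¬((i = j ∧ k = l) ∨ (i = k ∧ j = l) ∨ (i = l ∧ j = k)) →
          ∫ ω, u i ω * u j ω * conj (u k ω) * conj (u l ω) ∂P₁ = 0) →
        ∀ (Y : ι → Ω₂ → E n), (∀ k, Measurable (Y k)) →
        (∀ k l, k ≠ l → IndepFun (Y k) (Y l) P₂) →
        (∀ k S, MeasurableSet S → P₂ (Y k ⁻¹' S) ≤ ENNReal.ofReal (A / ρ ^ n) * volume S) →
        ∀ (f : E n → ℂ), Measurable f → (∀ z, z ∉ cube n → f z = 0) →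
        ∫⁻ w, ‖FF c τ u Y f w‖ₑ ^ q ∂(nu n P₁ P₂ R) ≤
          ENNReal.ofReal (C * (R ^ ((4 - q) / 2) * (XX δ ρ ^ (n - 1)) ^ ((q - 2) / 2))) *
            ∫⁻ z, ‖f z‖ₑ ^ q := by
  obtain ⟨C, hC, h⟩ := marc24 q hq2 hq4
  have : Nonempty (Fin n) := ⟨⟨0, by omega⟩⟩
  obtain ⟨j0, hj0⟩ := Finite.exists_min (fun j => |c j|)
  set c0 : ℝ := |c j0| with hc0d
  have hc0 : 0 < c0 := abs_pos.2 (hc j0)
  have hcc : ∀ j, c0 ≤ |c j| := hj0
  have hK := KK_pos n hA hc0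
  refine ⟨C * 2 ^ ((4 - q) / 2) * KK n A c0 ^ ((q - 2) / 2), by positivity, ?_⟩
  intro R δ ρ hR hδ hρ ι Ω₁ Ω₂ _ _ _ τ hτ hd hdm P₁ P₂ _ _ u hu hu1 hp Y hY hi hde f hf hs
  have hX := XX_pos hδ hρ
  have hfac : 0 < C * 2 ^ ((4 - q) / 2) * KK n A c0 ^ ((q - 2) / 2) *
      (R ^ ((4 - q) / 2) * (XX δ ρ ^ (n - 1)) ^ ((q - 2) / 2)) := by positivity
  by_cases hfin : ∫⁻ z, ‖f z‖ₑ ^ q = ⊤
  · rw [hfin, ENNReal.mul_top (ENNReal.ofReal_pos.2 hfac).ne']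
    exact le_top
  have hvc : IsFiniteMeasure (volume.restrict (cube n)) :=
    ⟨by rw [Measure.restrict_apply_univ]; exact cube_vol n⟩
  have hind : (cube n).indicator f = f := by
    ext z
    by_cases hz : z ∈ cube n
    · rw [indicator_of_mem hz]
    · rw [indicator_of_notMem hz, hs z hz]
  have hLq : MemLp f (ENNReal.ofReal q) (volume.restrict (cube n)) := by
    refine ⟨hf.aestronglyMeasurable, ?_⟩
    rw [eLpNorm_lt_top_iff_lintegral_rpow_enorm_lt_top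
      (ENNReal.ofReal_pos.2 (by linarith)).ne' ENNReal.ofReal_ne_top,
      ENNReal.toReal_ofReal (by linarith)]
    exact (setLIntegral_le_lintegral _ _).trans_lt (lt_top_iff_ne_top.2 hfin)
  have hmem : ∀ p : ℝ≥0∞, p ≤ ENNReal.ofReal q → MemLp f p volume := by
    intro p hp
    rw [← hind, memLp_indicator_iff_restrict (cube_meas n)]
    exact hLq.mono_exponent hp
  have h2 : MemLp f 2 volume := hmem 2 (by
    rw [show (2 : ℝ≥0∞) = ENNReal.ofReal 2 by norm_num]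
    exact ENNReal.ofReal_le_ofReal hq2.le)
  have hint : Integrable f := memLp_one_iff_integrable.1 (hmem 1 (by
    rw [← ENNReal.ofReal_one]
    exact ENNReal.ofReal_le_ofReal (by linarith)))
  have hFm := FF_meas c hτ hu hY hf
  have key := h (volume : Measure (E n)) (nu n P₁ P₂ R)
    (fun w => ‖FF c τ u Y f w‖) (fun z => ‖f z‖) hFm.norm hf.norm
    (fun w => norm_nonneg _) (fun z => norm_nonneg _) (2 * R) (KK n A c0 * XX δ ρ ^ (n - 1))
    (by positivity) (by positivity) ?_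
  · simp only [ofReal_norm] at key
    refine key.trans (le_of_eq ?_)
    congr 2
    rw [Real.mul_rpow (by norm_num) hR.le, Real.mul_rpow hK.le (by positivity)]
    ring
  · intro t ht
    have hS : MeasurableSet {z : E n | t < ‖f z‖} := measurableSet_lt measurable_const hf.norm
    set S := {z : E n | t < ‖f z‖} with hSd
    have hSc : Sᶜ = {z : E n | ‖f z‖ ≤ t} := by
      ext z
      simp [hSd]
    refine ⟨fun w => ‖FF c τ u Y (S.indicator f) w‖ₑ, fun w => ‖FF c τ u Y (Sᶜ.indicator f) w‖ₑ,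
      (FF_meas c hτ hu hY (hf.indicator hS)).enorm,
      (FF_meas c hτ hu hY (hf.indicator hS.compl)).enorm, ?_, ?_, ?_⟩
    · refine ae_of_all _ fun w => ?_
      rw [ofReal_norm, FF_add c hτ u Y hf hint hS w]
      exact enorm_add_le _ _
    · refine (two_FF c hτ hd P₁ P₂ R hu hu1 hY (hf.indicator hS) (hint.indicator hS)
        (h2.indicator hS)).trans (le_of_eq ?_)
      congr 1
      rw [← lintegral_indicator hS]
      apply lintegral_congr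
      intro z
      by_cases hz : z ∈ S
      · rw [indicator_of_mem hz, indicator_of_mem hz, ofReal_norm]
      · rw [indicator_of_notMem hz, indicator_of_notMem hz]
        simp
    · have hBS : BS t (Sᶜ.indicator f) := by
        refine ⟨hf.indicator hS.compl, fun z => ?_, fun z hz => ?_⟩
        · by_cases hz : z ∈ Sᶜ
          · rw [indicator_of_mem hz]
            rw [hSc] at hz
            exact hz
          · rw [indicator_of_notMem hz, norm_zero]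
            exact ht.le
        · by_cases hz2 : z ∈ Sᶜ
          · rw [indicator_of_mem hz2]
            exact hs z hz
          · rw [indicator_of_notMem hz2]
      refine (four_FF (by omega) c c0 hc0 hcc R δ ρ A hδ hρ hA hτ hd hdm P₁ P₂ hu hu1 hp hY hi hde
        hBS).trans ?_
      refine mul_le_mul' (DD_le hn hA hc0 hδ hρ) (le_of_eq ?_)
      rw [← hSc, ← lintegral_indicator hS.compl]
      apply lintegral_congr
      intro z
      by_cases hz : z ∈ Sᶜ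
      · rw [indicator_of_mem hz, indicator_of_mem hz, ofReal_norm]
      · rw [indicator_of_notMem hz, indicator_of_notMem hz]
        simp

end Pool.Agent.N238.CR
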