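import Mathlib
import Pool.Agent.N238.CR.H
import Pool.Agent.H153R4.Chg
set_option autoImplicit false

/-! Transfer to coordinates. -/

namespace Pool.Agent.N238.CR

open MeasureTheory Set Complex FourierTransform ProbabilityTheory
open scoped ENNReal RealInnerProductSpace ComplexConjugate
open Pool.Agent.H153R4 Pool.Agent.W777.ST

variable {n : ℕ} {ι : Type} [Fintype ι]

/-- transported sets -/
def tl (τ : ι → Set (Fin n → ℝ)) (k : ι) : Set (E n) := {z | z.ofLp ∈ τ k}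

/-- modulated functions in coordinates -/
noncomputable def mdl (τ : ι → Set (Fin n → ℝ)) (u : ι → ℂ) (y : ι → Fin n → ℝ)
    (f : (Fin n → ℝ) → ℂ) (ξ : Fin n → ℝ) : ℂ :=
  ∑ k, u k * cexp (2 * Real.pi * I * ((∑ j, ξ j * y k j : ℝ) : ℂ)) * (τ k).indicator f ξ

lemma mdl_eq (τ : ι → Set (Fin n → ℝ)) (u : ι → ℂ) (y : ι → Fin n → ℝ)
    (f : (Fin n → ℝ) → ℂ) (g : E n → ℂ) (ξ : Fin n → ℝ)
    (h : f ξ = g (WithLp.toLp 2 ξ)) :
    mdl τ u y f ξ = VV (tl τ) u (fun k => WithLp.toLp 2 (y k)) g (WithLp.toLp 2 ξ) := by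
  unfold mdl VV md
  apply Finset.sum_congr rfl
  intro k _
  rw [mul_assoc]
  congr 1
  congr 1
  · unfold ex
    congr 1
    have e1 : (⟪(WithLp.toLp 2 ξ : E n), WithLp.toLp 2 (y k)⟫ : ℝ) = ∑ j, ξ j * y k j := by
      rw [PiLp.inner_apply]
      apply Finset.sum_congr rfl
      intro j _
      simp only [RCLike.inner_apply, conj_trivial]
      ring
    rw [e1]
    push_cast
    ring
  · by_cases hk : ξ ∈ τ k
    · rw [indicator_of_mem hk, indicator_of_mem (show (WithLp.toLp 2 ξ : E n) ∈ tl τ k from hk), h]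
    · rw [indicator_of_notMem hk, indicator_of_notMem
        (show (WithLp.toLp 2 ξ : E n) ∉ tl τ k from hk)]

lemma tl_meas {τ : ι → Set (Fin n → ℝ)} (hτ : ∀ k, MeasurableSet (τ k)) (k : ι) :
    MeasurableSet (tl τ k) := ofLp_meas (hτ k)

/-- the extension operator in coordinates -/
lemma ext_FF {τ : ι → Set (Fin n → ℝ)} (hτ : ∀ k, MeasurableSet (τ k)) (c : Fin n → ℝ)
    (u : ι → ℂ) (y : ι → Fin n → ℝ) (f : (Fin n → ℝ) → ℂ) {g : E n → ℂ} (hg : Measurable g)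
    (hi : Integrable g) (hs : ∀ z, z ∉ cube n → g z = 0)
    (hfg : ∀ᵐ ξ : Fin n → ℝ, ξ ∈ Icc (-1 : Fin n → ℝ) 1 → f ξ = g (WithLp.toLp 2 ξ))
    (x : Fin n → ℝ) (t : ℝ) :
    ∫ ξ in Icc (-1) 1, mdl τ u y f ξ *
      cexp (2 * Real.pi * I * ((∑ j, ξ j * x j + (∑ j, c j * ξ j ^ 2) * t : ℝ) : ℂ)) =
    ∑ k, u k * 𝓕 (ch (sT c t) ((tl τ k).indicator g))
      ((WithLp.toLp 2 fun j => -x j : E n) - WithLp.toLp 2 (y k)) := by
  rw [← F_VV (tl_meas hτ) u (fun k => WithLp.toLp 2 (y k)) hg hi (sT c t)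
    (WithLp.toLp 2 fun j => -x j)]
  have h1 := ext0_eq c (fun ξ => VV (tl τ) u (fun k => WithLp.toLp 2 (y k)) g (WithLp.toLp 2 ξ))
    (x, t)
  simp only at h1
  have h2 : (fun z : E n => VV (tl τ) u (fun k => WithLp.toLp 2 (y k)) g (WithLp.toLp 2 z.ofLp)) =
      VV (tl τ) u (fun k => WithLp.toLp 2 (y k)) g := rfl
  rw [h2] at h1
  change ext0 c _ (x, t) = 𝓕 (ch (sT c t) (VV (tl τ) u (fun k => WithLp.toLp 2 (y k)) g))
    (WithLp.toLp 2 fun j => -x j) at h1
  rw [← h1]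
  unfold ext0 ph
  rw [← integral_indicator measurableSet_Icc]
  apply integral_congr_ae
  filter_upwards [hfg] with ξ h3
  by_cases hξ : ξ ∈ Icc (-1 : Fin n → ℝ) 1
  · rw [indicator_of_mem hξ, mdl_eq τ u y f g ξ (h3 hξ)]
  · rw [indicator_of_notMem hξ]
    have h4 : g (WithLp.toLp 2 ξ) = 0 := by
      apply hs
      intro h5
      apply hξ
      refine ⟨fun j => ?_, fun j => ?_⟩
      · exact (abs_le.1 (h5 j)).1
      · exact (abs_le.1 (h5 j)).2
    have h6 : VV (tl τ) u (fun k => WithLp.toLp 2 (y k)) g (WithLp.toLp 2 ξ) = 0 := by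
      unfold VV md
      apply Finset.sum_eq_zero
      intro k _
      by_cases hk : (WithLp.toLp 2 ξ : E n) ∈ tl τ k
      · rw [indicator_of_mem hk, h4, mul_zero, mul_zero]
      · rw [indicator_of_notMem hk, mul_zero, mul_zero]
    rw [h6, zero_mul]

/-- the space-time integral -/
lemma slab_int (R : ℝ) (H : E n → ℝ → ℝ≥0∞) (hH : Measurable fun p : ℝ × E n => H p.2 p.1) :
    ∫⁻ y in {y : (Fin n → ℝ) × ℝ | |y.2| ≤ R}, H (WithLp.toLp 2 fun j => -y.1 j) y.2 =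
      ∫⁻ t in Icc (-R) R, ∫⁻ z, H z t := by
  have h1 : {y : (Fin n → ℝ) × ℝ | |y.2| ≤ R} = univ ×ˢ Icc (-R) R := by
    ext y
    simp [abs_le]
  have hm : Measurable fun y : (Fin n → ℝ) × ℝ => H (WithLp.toLp 2 fun j => -y.1 j) y.2 := by
    have h2 : Measurable fun y : (Fin n → ℝ) × ℝ => (WithLp.toLp 2 fun j => -y.1 j : E n) := by
      apply (PiLp.volume_preserving_toLp (Fin n)).measurable.comp
      rw [measurable_pi_iff]
      intro j
      fun_prop
    exact hH.comp (measurable_snd.prodMk h2)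
  rw [h1, Measure.volume_eq_prod, ← Measure.prod_restrict, Measure.restrict_univ,
    lintegral_prod_symm _ hm.aemeasurable]
  apply lintegral_congr
  intro t
  exact lint_refl (fun z => H z t)

end Pool.Agent.N238.CR
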